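import Mathlib

/-!
Products of differences in a given class modulo a prime: Kloosterman sums.
-/

set_option autoImplicit false

namespace Pool.Agent.Zk11.LC

open Finset

/-- Weil's bound -/
def KB : Prop := ∀ (p : ℕ) [Fact p.Prime] (a b : ZMod p), a ≠ 0 → b ≠ 0 →
    ‖∑ x : (ZMod p)ˣ, (ZMod.stdAddChar
      (a * (x : ZMod p) + b * ((x⁻¹ : (ZMod p)ˣ) : ZMod p)) : ℂ)‖ ≤ 2 * Real.sqrt p

section
variable {p : ℕ} [Fact p.Prime]

/-- the exponential -/
noncomputable def ee (t : ZMod p) : ℂ := ZMod.stdAddChar t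

theorem ee_add (s t : ZMod p) : ee (s + t) = ee s * ee t := by
  unfold ee
  exact AddChar.map_add_eq_mul _ _ _

theorem ee_norm (t : ZMod p) : ‖ee t‖ = 1 := AddChar.norm_apply _ _

theorem ee_neg (t : ZMod p) : ee (-t) = (starRingEnd ℂ) (ee t) := by
  unfold ee
  rw [AddChar.map_neg_eq_conj]

theorem ee_sum (u : ZMod p) : ∑ a : ZMod p, ee (a * u) = if u = 0 then (p : ℂ) else 0 := by
  have h := AddChar.sum_mulShift (ψ := (ZMod.stdAddChar : AddChar (ZMod p) ℂ)) u
    (ZMod.isPrimitive_stdAddChar p)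
  unfold ee
  rw [h, ZMod.card]
  split_ifs <;> simp

/-- the Fourier transform of a set -/
noncomputable def FT (S : Finset (ZMod p)) (a : ZMod p) : ℂ := ∑ s ∈ S, ee (a * s)

theorem FT_zero (S : Finset (ZMod p)) : FT S 0 = S.card := by
  unfold FT
  simp [ee]

theorem parseval (S : Finset (ZMod p)) : ∑ a : ZMod p, ‖FT S a‖ ^ 2 = p * S.card := by
  have h1 : ∀ a : ZMod p, ((‖FT S a‖ ^ 2 : ℝ) : ℂ) = ∑ s ∈ S, ∑ t ∈ S, ee (a * (s - t)) := by
    intro a
    rw [← Complex.normSq_eq_norm_sq, Complex.normSq_eq_conj_mul_self, mul_comm]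
    unfold FT
    rw [map_sum, sum_mul_sum]
    refine sum_congr rfl fun s _ => sum_congr rfl fun t _ => ?_
    rw [← ee_neg, ← ee_add]
    congr 1
    ring
  have h2 : ((∑ a : ZMod p, ‖FT S a‖ ^ 2 : ℝ) : ℂ) = ((p * S.card : ℝ) : ℂ) := by
    rw [Complex.ofReal_sum, sum_congr rfl fun a _ => h1 a, sum_comm]
    rw [sum_congr rfl fun s _ => sum_comm]
    have h3 : ∀ s ∈ S, ∑ t ∈ S, ∑ a : ZMod p, ee (a * (s - t)) = p := by
      intro s hs
      simp_rw [ee_sum, sub_eq_zero]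
      rw [sum_ite_eq, if_pos hs]
    rw [sum_congr rfl h3, sum_const, nsmul_eq_mul]
    push_cast
    ring
  exact_mod_cast h2

/-- the transform of the differences -/
noncomputable def GG (S T : Finset (ZMod p)) (a : ZMod p) : ℂ :=
  FT S a * (starRingEnd ℂ) (FT T a)

theorem GG_sum (S T : Finset (ZMod p)) :
    ∑ a : ZMod p, ‖GG S T a‖ ≤ p * Real.sqrt (S.card * T.card) := by
  have h1 : (∑ a : ZMod p, ‖GG S T a‖) ^ 2 ≤ (p * Real.sqrt (S.card * T.card)) ^ 2 := by
    have h2 : ∀ a : ZMod p, ‖GG S T a‖ = ‖FT S a‖ * ‖FT T a‖ := by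
      intro a
      unfold GG
      rw [norm_mul, RCLike.norm_conj]
    simp_rw [h2]
    refine (sum_mul_sq_le_sq_mul_sq _ _ _).trans (le_of_eq ?_)
    rw [parseval, parseval, mul_pow, Real.sq_sqrt (by positivity)]
    ring
  exact (pow_le_pow_iff_left₀ (sum_nonneg fun _ _ => norm_nonneg _) (by positivity)
    two_ne_zero).1 h1

/-- the number of the representations as a difference -/
noncomputable def rr (S T : Finset (ZMod p)) (u : ZMod p) : ℂ :=
  ∑ s ∈ S, ∑ t ∈ T, if s - t = u then 1 else 0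

theorem rr_eq (S T : Finset (ZMod p)) (u : ZMod p) :
    (p : ℂ) * rr S T u = ∑ a : ZMod p, GG S T a * ee (-a * u) := by
  have h1 : ∀ a : ZMod p, GG S T a * ee (-a * u) =
      ∑ s ∈ S, ∑ t ∈ T, ee (a * (s - t - u)) := by
    intro a
    unfold GG FT
    rw [map_sum, sum_mul_sum, sum_mul]
    refine sum_congr rfl fun s _ => ?_
    rw [sum_mul]
    refine sum_congr rfl fun t _ => ?_
    rw [← ee_neg, ← ee_add, ← ee_add]
    congr 1
    ring
  rw [sum_congr rfl fun a _ => h1 a, sum_comm]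
  unfold rr
  rw [mul_sum]
  refine sum_congr rfl fun s _ => ?_
  rw [sum_comm, mul_sum]
  refine sum_congr rfl fun t _ => ?_
  rw [ee_sum]
  simp only [sub_eq_zero]
  split_ifs <;> simp

theorem sum_units (f : ZMod p → ℂ) : ∑ x : (ZMod p)ˣ, f x = ∑ x : ZMod p, f x - f 0 := by
  have h2 : ∑ x : (ZMod p)ˣ, f x = ∑ x ∈ univ.erase (0 : ZMod p), f x := by
    refine sum_bij (fun (x : (ZMod p)ˣ) _ => (x : ZMod p)) ?_ ?_ ?_ ?_
    · intro x _
      rw [mem_erase]
      exact ⟨x.ne_zero, mem_univ _⟩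
    · intro x _ y _ hxy
      exact Units.ext hxy
    · intro x hx
      rw [mem_erase] at hx
      exact ⟨Units.mk0 x hx.1, mem_univ _, rfl⟩
    · intro x _
      rfl
  rw [h2, ← add_sum_erase univ f (mem_univ (0 : ZMod p))]
  ring

theorem kl_one (c : ZMod p) (hc : c ≠ 0) : ‖∑ x : (ZMod p)ˣ, ee (c * (x : ZMod p))‖ ≤ 1 := by
  rw [sum_units (fun x => ee (c * x))]
  have h1 : ∑ x : ZMod p, ee (c * x) = 0 := by
    have := ee_sum c
    rw [if_neg hc] at this
    rw [← this]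
    exact sum_congr rfl fun x _ => by rw [mul_comm]
  rw [h1, mul_zero, zero_sub, norm_neg, ee_norm]

theorem one_le_sqrt : (1 : ℝ) ≤ 2 * Real.sqrt p := by
  have h1 : (1 : ℝ) ≤ Real.sqrt p := by
    rw [Real.one_le_sqrt]
    exact_mod_cast (Fact.out : p.Prime).one_lt.le
  linarith

/-- the Kloosterman sum -/
noncomputable def KK (a b : ZMod p) : ℂ :=
  ∑ x : (ZMod p)ˣ, ee (a * (x : ZMod p) + b * ((x⁻¹ : (ZMod p)ˣ) : ZMod p))

theorem KK_le (hK : KB) (a b : ZMod p) (h : ¬ (a = 0 ∧ b = 0)) :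
    ‖KK a b‖ ≤ 2 * Real.sqrt p := by
  unfold KK
  by_cases ha : a = 0
  · have hb : b ≠ 0 := fun hb => h ⟨ha, hb⟩
    rw [ha]
    simp only [zero_mul, zero_add]
    have h1 : ∑ x : (ZMod p)ˣ, ee (b * ((x⁻¹ : (ZMod p)ˣ) : ZMod p)) =
        ∑ x : (ZMod p)ˣ, ee (b * (x : ZMod p)) :=
      Equiv.sum_comp (Equiv.inv (ZMod p)ˣ) (fun x : (ZMod p)ˣ => ee (b * (x : ZMod p)))
    rw [h1]
    exact (kl_one b hb).trans one_le_sqrt
  · by_cases hb : b = 0
    · rw [hb]
      simp only [zero_mul, add_zero]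
      exact (kl_one a ha).trans one_le_sqrt
    · exact hK p a b ha hb

theorem KK_zero : ‖KK (0 : ZMod p) 0‖ ≤ p := by
  unfold KK
  refine (norm_sum_le _ _).trans ?_
  simp_rw [ee_norm]
  rw [sum_const, nsmul_eq_mul, mul_one, card_univ]
  have : Fintype.card (ZMod p)ˣ ≤ p := by
    rw [ZMod.card_units_eq_totient]
    exact Nat.totient_le p
  exact_mod_cast this

/-- the number of the solutions of `(s - t) (s' - t') = δ` -/
theorem hyp (hK : KB) (S T S' T' : Finset (ZMod p)) (δ : ZMod p) (hδ : δ ≠ 0) :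
    ‖∑ x : (ZMod p)ˣ, rr S T x * rr S' T' (δ * ((x⁻¹ : (ZMod p)ˣ) : ZMod p))‖ ≤
      S.card * T.card * (S'.card * T'.card) / p +
        2 * Real.sqrt p * (Real.sqrt (S.card * T.card) * Real.sqrt (S'.card * T'.card)) := by
  have hp0 : (0 : ℝ) < p := by exact_mod_cast (Fact.out : p.Prime).pos
  have h1 : (p : ℂ) ^ 2 * ∑ x : (ZMod p)ˣ, rr S T x * rr S' T' (δ * ((x⁻¹ : (ZMod p)ˣ) : ZMod p)) =
      ∑ a : ZMod p, ∑ b : ZMod p, GG S T a * GG S' T' b * KK (-a) (-b * δ) := by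
    rw [mul_sum]
    have h2 : ∀ x : (ZMod p)ˣ, (p : ℂ) ^ 2 * (rr S T x *
        rr S' T' (δ * ((x⁻¹ : (ZMod p)ˣ) : ZMod p))) =
        ∑ a : ZMod p, ∑ b : ZMod p, GG S T a * GG S' T' b *
          ee (-a * (x : ZMod p) + -b * δ * ((x⁻¹ : (ZMod p)ˣ) : ZMod p)) := by
      intro x
      have h3 : (p : ℂ) ^ 2 * (rr S T x * rr S' T' (δ * ((x⁻¹ : (ZMod p)ˣ) : ZMod p))) =
          ((p : ℂ) * rr S T x) * ((p : ℂ) * rr S' T' (δ * ((x⁻¹ : (ZMod p)ˣ) : ZMod p))) := by
        ring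
      rw [h3, rr_eq, rr_eq, sum_mul_sum]
      refine sum_congr rfl fun a _ => sum_congr rfl fun b _ => ?_
      rw [ee_add, ← mul_assoc (-b) δ]
      ring
    rw [sum_congr rfl fun x _ => h2 x, sum_comm]
    refine sum_congr rfl fun a _ => ?_
    rw [sum_comm]
    refine sum_congr rfl fun b _ => ?_
    unfold KK
    rw [mul_sum]
  have h4 : (p : ℝ) ^ 2 * ‖∑ x : (ZMod p)ˣ, rr S T x *
      rr S' T' (δ * ((x⁻¹ : (ZMod p)ˣ) : ZMod p))‖ ≤
      S.card * T.card * (S'.card * T'.card) * p +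
        2 * Real.sqrt p * ((∑ a : ZMod p, ‖GG S T a‖) * ∑ b : ZMod p, ‖GG S' T' b‖) := by
    have h5 : (p : ℝ) ^ 2 * ‖∑ x : (ZMod p)ˣ, rr S T x *
        rr S' T' (δ * ((x⁻¹ : (ZMod p)ˣ) : ZMod p))‖ =
        ‖(p : ℂ) ^ 2 * ∑ x : (ZMod p)ˣ, rr S T x *
          rr S' T' (δ * ((x⁻¹ : (ZMod p)ˣ) : ZMod p))‖ := by
      rw [norm_mul, norm_pow, Complex.norm_natCast]
    rw [h5, h1]
    refine (norm_sum_le _ _).trans ?_
    have h6 : ∀ a : ZMod p, ‖∑ b : ZMod p, GG S T a * GG S' T' b * KK (-a) (-b * δ)‖ ≤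
        ∑ b : ZMod p, (‖GG S T a‖ * ‖GG S' T' b‖ * (2 * Real.sqrt p) +
          (if a = 0 ∧ b = 0 then (S.card * T.card * (S'.card * T'.card) * p : ℝ) else 0)) := by
      intro a
      refine (norm_sum_le _ _).trans (sum_le_sum fun b _ => ?_)
      rw [norm_mul, norm_mul]
      by_cases hab : a = 0 ∧ b = 0
      · rw [if_pos hab, hab.1, hab.2]
        have h7 : ‖GG S T (0 : ZMod p)‖ = S.card * T.card := by
          unfold GG
          rw [norm_mul, RCLike.norm_conj, FT_zero, FT_zero, Complex.norm_natCast,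
            Complex.norm_natCast]
        have h8 : ‖GG S' T' (0 : ZMod p)‖ = S'.card * T'.card := by
          unfold GG
          rw [norm_mul, RCLike.norm_conj, FT_zero, FT_zero, Complex.norm_natCast,
            Complex.norm_natCast]
        rw [neg_zero, zero_mul, h7, h8]
        have h9 : (S.card : ℝ) * T.card * (S'.card * T'.card) * ‖KK (0 : ZMod p) 0‖ ≤
            S.card * T.card * (S'.card * T'.card) * p :=
          mul_le_mul_of_nonneg_left KK_zero (by positivity)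
        have h10 : (0 : ℝ) ≤ S.card * T.card * (S'.card * T'.card) * (2 * Real.sqrt p) := by
          positivity
        linarith
      · rw [if_neg hab, add_zero]
        refine mul_le_mul_of_nonneg_left (KK_le hK _ _ ?_) (by positivity)
        rintro ⟨h7, h8⟩
        refine hab ⟨neg_eq_zero.1 h7, ?_⟩
        rcases mul_eq_zero.1 h8 with h9 | h9
        · exact neg_eq_zero.1 h9
        · exact absurd h9 hδ
    refine (sum_le_sum fun a _ => h6 a).trans (le_of_eq ?_)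
    simp_rw [sum_add_distrib]
    rw [add_comm]
    congr 1
    · rw [sum_eq_single (0 : ZMod p), sum_eq_single (0 : ZMod p)]
      · simp
      · intro b _ hb
        rw [if_neg fun h => hb h.2]
      · intro h
        exact absurd (mem_univ _) h
      · intro a _ ha
        exact sum_eq_zero fun b _ => by rw [if_neg fun h => ha h.1]
      · intro h
        exact absurd (mem_univ _) h
    · rw [sum_mul_sum, mul_sum]
      refine sum_congr rfl fun a _ => ?_
      rw [mul_sum]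
      refine sum_congr rfl fun b _ => ?_
      ring
  have h5 := GG_sum S T
  have h6 := GG_sum S' T'
  have h7 : (∑ a : ZMod p, ‖GG S T a‖) * ∑ b : ZMod p, ‖GG S' T' b‖ ≤
      (p * Real.sqrt (S.card * T.card)) * (p * Real.sqrt (S'.card * T'.card)) :=
    mul_le_mul h5 h6 (sum_nonneg fun _ _ => norm_nonneg _) (by positivity)
  have h8 : (p : ℝ) ^ 2 * ‖∑ x : (ZMod p)ˣ, rr S T x *
      rr S' T' (δ * ((x⁻¹ : (ZMod p)ˣ) : ZMod p))‖ ≤
      (p : ℝ) ^ 2 * (S.card * T.card * (S'.card * T'.card) / p +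
        2 * Real.sqrt p * (Real.sqrt (S.card * T.card) * Real.sqrt (S'.card * T'.card))) := by
    refine h4.trans ?_
    have h9 : 2 * Real.sqrt p * ((∑ a : ZMod p, ‖GG S T a‖) * ∑ b : ZMod p, ‖GG S' T' b‖) ≤
        2 * Real.sqrt p *
          ((p * Real.sqrt (S.card * T.card)) * (p * Real.sqrt (S'.card * T'.card))) :=
      mul_le_mul_of_nonneg_left h7 (by positivity)
    refine (add_le_add le_rfl h9).trans (le_of_eq ?_)
    field_simp
  exact le_of_mul_le_mul_left h8 (by positivity)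

end

end Pool.Agent.Zk11.LC
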