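import Pool.Agent.Zk11.LC.Total
import Pool.Agent.Zk11.LC.Hyp

/-!
Statements of four lemmas on the coincidences for different values of `m`.
-/

set_option autoImplicit false

namespace Pool.Agent.Zk11.LC

open Finset

/-- products in a class -/
def Box1 : Prop := ∀ (p : ℕ) [Fact p.Prime] (L H K : ℕ) (a0 b0 δ : ZMod p), ¬ p ∣ L →
  1 ≤ H → 1 ≤ K → 2 * H ≤ p → 2 * K ≤ p → δ ≠ 0 →
  (((range H ×ˢ range K).filter fun v : ℕ × ℕ =>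
    (a0 + (L : ZMod p) * v.1) * (b0 + (L : ZMod p) * v.2) = δ).card : ℝ) ≤
      4 * H * K / p + 4 * Real.sqrt p

/-- pairs of integers with product in a class -/
def Box2 : Prop := ∀ (q : ℕ) [Fact q.Prime] (L : ℕ) (δ : ZMod q) (W : Finset (ℕ × ℕ)) (X Y : ℝ),
  1 ≤ L → ¬ q ∣ L → δ ≠ 0 → 0 ≤ X → 0 ≤ Y →
  (∀ v ∈ W, (v.1 : ZMod q) * (v.2 : ZMod q) = δ) →
  (∀ v ∈ W, ∀ w ∈ W, v.1 ≤ w.1 → L ∣ w.1 - v.1 ∧ ((w.1 : ℝ) - v.1) ≤ X) →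
  (∀ v ∈ W, ∀ w ∈ W, v.2 ≤ w.2 → L ∣ w.2 - v.2 ∧ ((w.2 : ℝ) - v.2) ≤ Y) →
  (W.card : ℝ) ≤ 4 * ((X / L + 1) * (Y / L + 1)) / q + 4 * Real.sqrt q

/-- the coincidences for two blocks and one value of `m'` -/
def OffPair : Prop := ∀ (ρ : ℕ → ℕ → ℤ) (h L : ℕ) (Q ℳ : Finset ℕ) (x y : ℝ), 1 ≤ L → 0 < h →
  0 < y → 2 * y < x → (∀ p ∈ Q, p.Prime ∧ x ≤ p ∧ L < p) →
  (∀ m ∈ ℳ, m.Prime ∧ ¬ m ∣ L ∧ y ≤ m ∧ (m : ℝ) ≤ 2 * y) →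
  ∀ m' ∈ ℳ, ∀ β β' : ℕ × ℕ,
    ((((ℳ.erase m') ×ˢ (Q ×ˢ Q)).filter fun v : ℕ × (ℕ × ℕ) =>
      val ρ h L v.1 v.2.1 = val ρ h L m' v.2.2 ∧
        (v.2.1 / h, v.2.1 % L) = β ∧ (v.2.2 / h, v.2.2 % L) = β').card : ℝ) ≤
      4 * ((4 * y * h / x / L + 1) * (h / L + 1)) / y + 4 * Real.sqrt (2 * y)

/-- the total number of coincidences -/
def Total2 : Prop := ∀ (ρ : ℕ → ℕ → ℤ) (h L R J : ℕ) (Q ℳ : Finset ℕ) (x y : ℝ), 1 ≤ L → 0 < h →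
  0 < R → 0 < y → 2 * y < x → (∀ p ∈ Q, p / h < J) → (∀ p ∈ Q, p.Prime ∧ x ≤ p ∧ L < p) →
  (∀ m ∈ ℳ, m.Prime ∧ ¬ m ∣ L ∧ y ≤ m ∧ (m : ℝ) ≤ 2 * y) →
  (R : ℝ) ≤ 3 * y * h → 2 * y * h ≤ R →
  ((∑ m ∈ ℳ, ∑ m' ∈ ℳ, TT ρ h L Q m m' : ℕ) : ℝ) ≤
    (J * L * (48 * y * L.divisors.card * (2 + Real.log J) + J * L)) * ((h : ℝ) / L + 1) +
      (J * L) ^ 2 * ℳ.card *
        (4 * ((4 * y * h / x / L + 1) * (h / L + 1)) / y + 4 * Real.sqrt (2 * y))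

end Pool.Agent.Zk11.LC
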