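import Pool.Agent.Zk11.LC.St

/-!
The coincidences for two blocks and one value of `m'`.
-/

set_option autoImplicit false

namespace Pool.Agent.Zk11.LC

open Finset

theorem off (hB : Box2) : OffPair := by
  intro ρ h L Q ℳ x y hL hh hy hyx hQ hM m' hm' β β'
  have hL' : (0 : ℝ) < L := by exact_mod_cast hL
  have hh' : (0 : ℝ) < h := by exact_mod_cast hh
  have hx0 : 0 < x := by linarith
  set F := ((ℳ.erase m') ×ˢ (Q ×ˢ Q)).filter fun v : ℕ × (ℕ × ℕ) =>
      val ρ h L v.1 v.2.1 = val ρ h L m' v.2.2 ∧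
        (v.2.1 / h, v.2.1 % L) = β ∧ (v.2.2 / h, v.2.2 % L) = β' with hF
  obtain ⟨hmp', hmL', hmy', hmy2'⟩ := hM m' hm'
  have hFm : ∀ v ∈ F, v.1 ∈ ℳ ∧ v.1 ≠ m' ∧ v.2.1 ∈ Q ∧ v.2.2 ∈ Q ∧
      ρ β.1 β.2 + (v.1 : ℤ) * v.2.1 = ρ β'.1 β'.2 + (m' : ℤ) * v.2.2 ∧
      v.2.1 / h = β.1 ∧ v.2.1 % L = β.2 ∧ v.2.2 / h = β'.1 ∧ v.2.2 % L = β'.2 := by
    intro v hv
    rw [hF, mem_filter, mem_product, mem_product, mem_erase] at hv
    obtain ⟨⟨⟨a0, a1⟩, a2, a3⟩, a4, a5, a6⟩ := hv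
    unfold val at a4
    rw [← a5, ← a6]
    exact ⟨a1, a0, a2, a3, a4, rfl, rfl, rfl, rfl⟩
  rcases F.eq_empty_or_nonempty with h0 | ⟨v0, hv0⟩
  · rw [h0, card_empty, Nat.cast_zero]
    positivity
  have : Fact m'.Prime := ⟨hmp'⟩
  set δ : ZMod m' := ((ρ β'.1 β'.2 - ρ β.1 β.2 : ℤ) : ZMod m') with hδ
  have hsol : ∀ v ∈ F, ((v.1 : ℕ) : ZMod m') * ((v.2.1 : ℕ) : ZMod m') = δ := by
    intro v hv
    obtain ⟨b1, b2, b3, b4, b5, _⟩ := hFm v hv
    have e : (v.1 : ℤ) * v.2.1 = (ρ β'.1 β'.2 - ρ β.1 β.2) + (m' : ℤ) * v.2.2 := by linarith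
    have e2 : (((v.1 : ℤ) * v.2.1 : ℤ) : ZMod m') =
        (((ρ β'.1 β'.2 - ρ β.1 β.2) + (m' : ℤ) * v.2.2 : ℤ) : ZMod m') := by rw [e]
    rw [hδ]
    push_cast at e2 ⊢
    rw [e2]
    simp
  have hδ0 : δ ≠ 0 := by
    obtain ⟨b1, b2, b3, b4, b5, _⟩ := hFm v0 hv0
    rw [← hsol v0 hv0]
    refine mul_ne_zero ?_ ?_
    · rw [Ne, ZMod.natCast_eq_zero_iff]
      intro hd
      exact b2 (((Nat.prime_dvd_prime_iff_eq hmp' (hM _ b1).1).1 hd).symm)
    · rw [Ne, ZMod.natCast_eq_zero_iff]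
      intro hd
      have h1 := (Nat.prime_dvd_prime_iff_eq hmp' (hQ _ b3).1).1 hd
      have h2 := (hQ _ b3).2.1
      rw [← h1] at h2
      linarith
  set W := F.image fun v => (v.1, v.2.1) with hW
  have hcard : W.card = F.card := by
    rw [hW, card_image_of_injOn]
    intro v hv w hw hvw
    obtain ⟨b1, b2, b3, b4, b5, _⟩ := hFm v (mem_coe.1 hv)
    obtain ⟨c1, c2, c3, c4, c5, _⟩ := hFm w (mem_coe.1 hw)
    simp only [Prod.mk.injEq] at hvw
    rw [hvw.1, hvw.2] at b5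
    have h1 : (m' : ℤ) * v.2.2 = m' * w.2.2 := by linarith
    have hm0 : (m' : ℤ) ≠ 0 := by exact_mod_cast hmp'.pos.ne'
    have h2 := mul_left_cancel₀ hm0 h1
    exact Prod.ext hvw.1 (Prod.ext hvw.2 (by exact_mod_cast h2))
  -- differences of elements of one block
  have hblk : ∀ p p' : ℕ, p / h = p' / h → p % L = p' % L → p ≤ p' →
      L ∣ p' - p ∧ ((p' : ℝ) - p) ≤ h := by
    intro p p' e1 e2 hle
    refine ⟨(Nat.modEq_iff_dvd' hle).1 e2, ?_⟩
    have h5 := Nat.div_add_mod p h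
    have h6 := Nat.div_add_mod p' h
    have h7 := Nat.mod_lt p' hh
    rw [← e1] at h6
    have : p' ≤ p + h := by
      have : h * (p / h) ≤ p := Nat.mul_div_le _ _
      omega
    have : (p' : ℝ) ≤ p + h := by exact_mod_cast this
    linarith
  have habs : ∀ p p' : ℕ, p / h = p' / h → p % L = p' % L → |(p' : ℝ) - p| ≤ h := by
    intro p p' e1 e2
    rcases le_total p p' with hle | hle
    · have h1 := (hblk p p' e1 e2 hle).2
      have h2 : (p : ℝ) ≤ p' := by exact_mod_cast hle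
      rw [abs_of_nonneg (by linarith)]
      exact h1
    · have h1 := (hblk p' p e1.symm e2.symm hle).2
      have h2 : (p' : ℝ) ≤ p := by exact_mod_cast hle
      rw [abs_sub_comm, abs_of_nonneg (by linarith)]
      exact h1
  have hX0 : 0 ≤ 4 * y * h / x := by positivity
  have key := hB m' L δ W (4 * y * h / x) h hL hmL' hδ0 hX0 hh'.le (by
      intro w hw
      obtain ⟨v, hv, rfl⟩ := mem_image.1 hw
      exact hsol v hv) (by
      intro w hw w' hw' hle
      obtain ⟨v, hv, rfl⟩ := mem_image.1 hw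
      obtain ⟨v', hv', rfl⟩ := mem_image.1 hw'
      simp only at hle ⊢
      obtain ⟨b1, b2, b3, b4, b5, b6, b7, b8, b9⟩ := hFm v hv
      obtain ⟨c1, c2, c3, c4, c5, c6, c7, c8, c9⟩ := hFm v' hv'
      have hle' : (v.1 : ℝ) ≤ v'.1 := by exact_mod_cast hle
      constructor
      · -- the congruence
        have d1 : (L : ℤ) ∣ (v'.2.1 : ℤ) - v.2.1 := by
          have : v.2.1 ≡ v'.2.1 [MOD L] := b7.trans c7.symm
          exact (Nat.modEq_iff_dvd.1 this)
        have d2 : (L : ℤ) ∣ (v'.2.2 : ℤ) - v.2.2 := by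
          have : v.2.2 ≡ v'.2.2 [MOD L] := b9.trans c9.symm
          exact (Nat.modEq_iff_dvd.1 this)
        have d3 : (L : ℤ) ∣ ((v'.1 : ℤ) - v.1) * v'.2.1 := by
          have e : ((v'.1 : ℤ) - v.1) * v'.2.1 =
              m' * ((v'.2.2 : ℤ) - v.2.2) - v.1 * ((v'.2.1 : ℤ) - v.2.1) := by
            have := sub_eq_zero.2 b5
            have := sub_eq_zero.2 c5
            linarith
          rw [e]
          exact dvd_sub (dvd_mul_of_dvd_right d2 _) (dvd_mul_of_dvd_right d1 _)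
        have d4 : (L : ℤ) ∣ (((v'.1 - v.1) * v'.2.1 : ℕ) : ℤ) := by
          rw [Nat.cast_mul, Nat.cast_sub hle]
          exact d3
        have d5 : L ∣ (v'.1 - v.1) * v'.2.1 := Int.natCast_dvd_natCast.1 d4
        have d6 : Nat.Coprime L v'.2.1 := by
          rw [Nat.coprime_comm]
          refine (Nat.Prime.coprime_iff_not_dvd (hQ _ c3).1).2 fun hd => ?_
          have := Nat.le_of_dvd (by omega) hd
          have := (hQ _ c3).2.2
          omega
        exact d6.dvd_of_dvd_mul_right d5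
      · have f1 := habs v.2.1 v'.2.1 (b6.trans c6.symm) (b7.trans c7.symm)
        have f2 := habs v.2.2 v'.2.2 (b8.trans c8.symm) (b9.trans c9.symm)
        have f3 : ((v'.1 : ℝ) - v.1) * v'.2.1 =
            m' * ((v'.2.2 : ℝ) - v.2.2) - v.1 * ((v'.2.1 : ℝ) - v.2.1) := by
          have b5' : (ρ β.1 β.2 : ℝ) + v.1 * v.2.1 = ρ β'.1 β'.2 + m' * v.2.2 := by
            exact_mod_cast b5
          have c5' : (ρ β.1 β.2 : ℝ) + v'.1 * v'.2.1 = ρ β'.1 β'.2 + m' * v'.2.2 := by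
            exact_mod_cast c5
          linarith
        rw [le_div_iff₀ hx0]
        have f4 : x ≤ v'.2.1 := (hQ _ c3).2.1
        calc ((v'.1 : ℝ) - v.1) * x ≤ ((v'.1 : ℝ) - v.1) * v'.2.1 :=
              mul_le_mul_of_nonneg_left f4 (by linarith)
          _ ≤ |m' * ((v'.2.2 : ℝ) - v.2.2) - v.1 * ((v'.2.1 : ℝ) - v.2.1)| := by
              rw [f3]
              exact le_abs_self _
          _ ≤ |m' * ((v'.2.2 : ℝ) - v.2.2)| + |v.1 * ((v'.2.1 : ℝ) - v.2.1)| := abs_sub _ _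
          _ = m' * |(v'.2.2 : ℝ) - v.2.2| + v.1 * |(v'.2.1 : ℝ) - v.2.1| := by
              rw [abs_mul, abs_mul, Nat.abs_cast, Nat.abs_cast]
          _ ≤ (2 * y) * h + (2 * y) * h := by
              have g1 := (hM _ b1).2.2.2
              gcongr
          _ = 4 * y * h := by ring) (by
      intro w hw w' hw' hle
      obtain ⟨v, hv, rfl⟩ := mem_image.1 hw
      obtain ⟨v', hv', rfl⟩ := mem_image.1 hw'
      simp only at hle ⊢
      obtain ⟨b1, b2, b3, b4, b5, b6, b7, b8, b9⟩ := hFm v hv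
      obtain ⟨c1, c2, c3, c4, c5, c6, c7, c8, c9⟩ := hFm v' hv'
      exact hblk _ _ (b6.trans c6.symm) (b7.trans c7.symm) hle)
  rw [hcard] at key
  refine key.trans (add_le_add ?_ ?_)
  · gcongr
  · gcongr

end Pool.Agent.Zk11.LC
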