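import Mathlib

/-!
Counting lemmas for locally constant choices of residue classes.
-/

set_option autoImplicit false

namespace Pool.Agent.Zk11.LC

open Finset

/-- integers in one class modulo `k` in a window -/
theorem cnt (S : Finset ℕ) (k : ℕ) (hk : 0 < k) (D : ℝ) (hD : 0 ≤ D)
    (h : ∀ a ∈ S, ∀ b ∈ S, a ≤ b → k ∣ b - a ∧ ((b : ℝ) - a) ≤ D) :
    (S.card : ℝ) ≤ D / k + 1 := by
  rcases S.eq_empty_or_nonempty with h0 | h0
  · rw [h0, card_empty, Nat.cast_zero]
    positivity
  · set a0 := S.min' h0 with ha0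
    have ha : a0 ∈ S := S.min'_mem h0
    have h1 : S.card ≤ (range (⌊D / k⌋₊ + 1)).card := by
      refine card_le_card_of_injOn (fun b => (b - a0) / k) ?_ ?_
      · intro b hb
        have hb' : b ∈ S := mem_coe.1 hb
        have hle : a0 ≤ b := S.min'_le b hb'
        obtain ⟨-, h3⟩ := h a0 ha b hb' hle
        rw [mem_coe, mem_range, Nat.lt_succ_iff]
        refine Nat.le_floor ?_
        calc (((b - a0) / k : ℕ) : ℝ) ≤ ((b - a0 : ℕ) : ℝ) / k := Nat.cast_div_le
          _ = ((b : ℝ) - a0) / k := by rw [Nat.cast_sub hle]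
          _ ≤ D / k := by gcongr
      · intro b hb c hc hbc
        have hb' : b ∈ S := mem_coe.1 hb
        have hc' : c ∈ S := mem_coe.1 hc
        have hle : a0 ≤ b := S.min'_le b hb'
        have hle' : a0 ≤ c := S.min'_le c hc'
        obtain ⟨h3, -⟩ := h a0 ha b hb' hle
        obtain ⟨h4, -⟩ := h a0 ha c hc' hle'
        simp only at hbc
        have h5 := Nat.div_mul_cancel h3
        have h6 := Nat.div_mul_cancel h4
        rw [hbc] at h5
        omega
    rw [card_range] at h1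
    have h2 : (S.card : ℝ) ≤ (⌊D / k⌋₊ : ℝ) + 1 := by exact_mod_cast h1
    have h3 := Nat.floor_le (show 0 ≤ D / k by positivity)
    linarith

/-- the weight of the distance -/
noncomputable def wt (j j' : ℕ) : ℝ := 1 / max 1 (|(j : ℝ) - j'|)

theorem sum_one_div (J : ℕ) : ∑ d ∈ range J, 1 / max 1 (d : ℝ) ≤ 2 + Real.log J := by
  rcases J with _ | J
  · simp
  · rw [sum_range_succ']
    have h1 : ∑ d ∈ range J, 1 / max 1 ((d + 1 : ℕ) : ℝ) = ((harmonic J : ℚ) : ℝ) := by
      rw [harmonic]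
      push_cast
      refine sum_congr rfl fun d _ => ?_
      rw [max_eq_right (by linarith [Nat.cast_nonneg (α := ℝ) d]), one_div]
    rw [h1]
    have h2 := harmonic_le_one_add_log J
    have h3 : Real.log J ≤ Real.log ((J + 1 : ℕ) : ℝ) := by
      rcases Nat.eq_zero_or_pos J with h | h
      · rw [h]; simp
      · exact Real.log_le_log (by exact_mod_cast h) (by push_cast; linarith)
    have h4 : (1 : ℝ) / max 1 ((0 : ℕ) : ℝ) = 1 := by simp
    rw [h4]
    linarith

theorem sum_wt (J j : ℕ) (hj : j < J) : ∑ j' ∈ range J, wt j j' ≤ 2 * (2 + Real.log J) := by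
  have h1 : ∀ j' ∈ range J, wt j j' ≤
      (if j' ≤ j then 1 / max 1 ((j - j' : ℕ) : ℝ) else 0) +
      (if j ≤ j' then 1 / max 1 ((j' - j : ℕ) : ℝ) else 0) := by
    intro j' _
    unfold wt
    rcases le_total j' j with h | h
    · rw [if_pos h, Nat.cast_sub h, abs_of_nonneg (by
        rw [sub_nonneg]; exact_mod_cast h)]
      have : 0 ≤ (if j ≤ j' then 1 / max 1 ((j' - j : ℕ) : ℝ) else 0) := by
        split_ifs <;> positivity
      linarith
    · rw [if_pos h, Nat.cast_sub h, abs_sub_comm, abs_of_nonneg (by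
        rw [sub_nonneg]; exact_mod_cast h)]
      have : 0 ≤ (if j' ≤ j then 1 / max 1 ((j - j' : ℕ) : ℝ) else 0) := by
        split_ifs <;> positivity
      linarith
  refine (sum_le_sum h1).trans ?_
  rw [sum_add_distrib]
  have h2 : ∑ j' ∈ range J, (if j' ≤ j then 1 / max 1 ((j - j' : ℕ) : ℝ) else 0) ≤
      ∑ d ∈ range J, 1 / max 1 (d : ℝ) := by
    rw [← sum_filter]
    rw [← sum_image (f := fun d : ℕ => 1 / max 1 (d : ℝ)) (g := fun j' => j - j')
      (s := (range J).filter fun j' => j' ≤ j)]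
    · refine sum_le_sum_of_subset_of_nonneg ?_ fun _ _ _ => by positivity
      intro d hd
      obtain ⟨j', _, rfl⟩ := mem_image.1 hd
      exact mem_range.2 (by omega)
    · intro a ha b hb hab
      rw [mem_coe, mem_filter] at ha hb
      simp only at hab
      omega
  have h3 : ∑ j' ∈ range J, (if j ≤ j' then 1 / max 1 ((j' - j : ℕ) : ℝ) else 0) ≤
      ∑ d ∈ range J, 1 / max 1 (d : ℝ) := by
    rw [← sum_filter]
    rw [← sum_image (f := fun d : ℕ => 1 / max 1 (d : ℝ)) (g := fun j' => j' - j)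
      (s := (range J).filter fun j' => j ≤ j')]
    · refine sum_le_sum_of_subset_of_nonneg ?_ fun _ _ _ => by positivity
      intro d hd
      obtain ⟨j', hj', rfl⟩ := mem_image.1 hd
      rw [mem_filter, mem_range] at hj'
      exact mem_range.2 (by omega)
    · intro a ha b hb hab
      rw [mem_coe, mem_filter] at ha hb
      simp only at hab
      omega
  have h4 := sum_one_div J
  linarith

/-- the greatest common divisor of `b - b'` and `L` -/
def gd (L b b' : ℕ) : ℕ := Nat.gcd ((b : ℤ) - b').natAbs L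

theorem sum_gd (L b : ℕ) (hL : 0 < L) :
    ((∑ b' ∈ range L, gd L b b' : ℕ) : ℝ) ≤ 2 * L * L.divisors.card := by
  have h1 : ∀ b', gd L b b' ≤ ∑ g ∈ L.divisors, (if (g : ℤ) ∣ (b : ℤ) - b' then g else 0) := by
    intro b'
    have hmem : gd L b b' ∈ L.divisors := Nat.mem_divisors.2 ⟨Nat.gcd_dvd_right _ _, hL.ne'⟩
    refine le_trans (le_of_eq ?_) (single_le_sum (f := fun g : ℕ =>
      if (g : ℤ) ∣ (b : ℤ) - b' then g else 0) (fun _ _ => Nat.zero_le _) hmem)
    rw [if_pos]
    exact Int.natCast_dvd.2 (Nat.gcd_dvd_left _ _)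
  have h2 : ∀ g ∈ L.divisors,
      ((∑ b' ∈ range L, (if (g : ℤ) ∣ (b : ℤ) - b' then g else 0) : ℕ) : ℝ) ≤ 2 * L := by
    intro g hg
    obtain ⟨hgL, -⟩ := Nat.mem_divisors.1 hg
    have hg0 : 0 < g := Nat.pos_of_dvd_of_pos hgL hL
    have hgle : g ≤ L := Nat.le_of_dvd hL hgL
    rw [← sum_filter, sum_const, smul_eq_mul, Nat.cast_mul]
    have h3 := cnt ((range L).filter fun b' : ℕ => (g : ℤ) ∣ (b : ℤ) - b') g hg0 L
      (Nat.cast_nonneg _) (by
        intro a ha c hc hac
        rw [mem_filter, mem_range] at ha hc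
        constructor
        · have h4 : (g : ℤ) ∣ (c : ℤ) - a := by
            have := dvd_sub ha.2 hc.2
            have e : (b : ℤ) - a - (b - c) = c - a := by ring
            rwa [e] at this
          rw [← Nat.cast_sub hac] at h4
          exact Int.natCast_dvd_natCast.1 h4
        · have : (c : ℝ) ≤ L := by exact_mod_cast hc.1.le
          have : (0 : ℝ) ≤ a := Nat.cast_nonneg _
          linarith)
    have hg0' : (0 : ℝ) < g := by exact_mod_cast hg0
    have hgle' : (g : ℝ) ≤ L := by exact_mod_cast hgle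
    calc (((range L).filter fun b' : ℕ => (g : ℤ) ∣ (b : ℤ) - b').card : ℝ) * g ≤
        (L / g + 1) * g := by gcongr
      _ = L + g := by field_simp
      _ ≤ 2 * L := by linarith
  have h3 : ∑ b' ∈ range L, gd L b b' ≤
      ∑ g ∈ L.divisors, ∑ b' ∈ range L, (if (g : ℤ) ∣ (b : ℤ) - b' then g else 0) := by
    rw [sum_comm]
    exact sum_le_sum fun b' _ => h1 b'
  calc ((∑ b' ∈ range L, gd L b b' : ℕ) : ℝ) ≤
      ((∑ g ∈ L.divisors, ∑ b' ∈ range L, (if (g : ℤ) ∣ (b : ℤ) - b' then g else 0) : ℕ) : ℝ) := by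
        exact_mod_cast h3
    _ ≤ ∑ g ∈ L.divisors, (2 * L : ℝ) := by
        rw [Nat.cast_sum]
        exact sum_le_sum h2
    _ = _ := by rw [sum_const, nsmul_eq_mul]; ring

end Pool.Agent.Zk11.LC
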