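import Pool.Agent.Zk11.LC.Box
import Pool.Agent.Zk11.LC.Off
import Pool.Agent.Zk11.LC.Final2
import Pool.Agent.Zk85.LCBox2
import Pool.Agent.Zk65.LCTot
import Pool.Agent.H498R2.SM_T8

/-!
Locally constant choices of residue classes: the two bounds.
-/

set_option autoImplicit false

namespace Pool.Agent.Zk11.LC

open Finset

theorem kb : KB := fun p _ a b ha hb => Pool.Agent.H498R2.kloosterman_prime p a b ha hb

theorem total2 : Total2 :=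
  Pool.Agent.Zk65.lc_total2 (off (Pool.Agent.Zk85.lc_box2 (box1 kb)))

theorem main3 {α : ℝ} (h0 : 1 / 2 < α) (h1 : α < 1) : ∃ N₀ : ℕ, ∀ N ≥ N₀, ∀ h L : ℕ, 1 ≤ L →
    L ≤ h → (h : ℝ) ≤ (N : ℝ) ^ α →
    ∀ r : ℕ → ℕ → ℕ, (∀ j b, 1 ≤ r j b ∧ r j b ≤ N) → ∀ (a : (p : ℕ) → ZMod p) (Q : Finset ℕ),
      Q ⊆ Pool.Agent.H170R2.PC.PD α N → (∀ p ∈ Q, a p = (r (p / h) (p % L) : ZMod p)) →
      L * (N : ℝ) ^ α / h ≤ (N : ℝ) ^ (1 - α) →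
      ((Q.card : ℝ) / (Pool.Agent.H170R2.PC.PD α N).card) ^ 2 * (N : ℝ) ^ 2 /
        (10 ^ 9 * L.divisors.card * Real.log N ^ 5 *
          (N + L * (N : ℝ) ^ α / h * (N : ℝ) ^ α + (L * (N : ℝ) ^ α / h) ^ 2 *
            ((N : ℝ) ^ (1 - α) * Real.sqrt ((N : ℝ) ^ (1 - α))))) ≤
        (Pool.Agent.H170R2.PC.coveredCount α N a : ℝ) := main2 total2 h0 h1

end Pool.Agent.Zk11.LC
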