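import Pool.Agent.Zk11.LC.St

/-!
Products of the elements of two progressions in a class modulo a prime.
-/

set_option autoImplicit false

namespace Pool.Agent.Zk11.LC

open Finset

theorem inj_prog {p : ℕ} [Fact p.Prime] {L : ℕ} (hL : ¬ p ∣ L) {n : ℕ} (hn : n ≤ p) (a : ZMod p) :
    Set.InjOn (fun t : ℕ => a + (L : ZMod p) * t) (range n : Finset ℕ) := by
  intro s hs t ht hst
  have hL0 : (L : ZMod p) ≠ 0 := by
    rwa [Ne, ZMod.natCast_eq_zero_iff]
  have h1 : (s : ZMod p) = t := mul_left_cancel₀ hL0 (add_left_cancel hst)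
  have h2 := (ZMod.natCast_eq_natCast_iff' s t p).1 h1
  rw [mem_coe, mem_range] at hs ht
  rwa [Nat.mod_eq_of_lt (by omega), Nat.mod_eq_of_lt (by omega)] at h2

/-- the number of the representations, as a natural number -/
noncomputable def rn {p : ℕ} [Fact p.Prime] (S T : Finset (ZMod p)) (u : ZMod p) : ℕ :=
  ((S ×ˢ T).filter fun v => v.1 - v.2 = u).card

theorem rr_rn {p : ℕ} [Fact p.Prime] (S T : Finset (ZMod p)) (u : ZMod p) :
    rr S T u = (rn S T u : ℂ) := by
  unfold rr rn
  rw [card_filter, sum_product]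
  push_cast
  rfl

theorem rn_ge {p : ℕ} [Fact p.Prime] {L : ℕ} (hL : ¬ p ∣ L) {H : ℕ} (hH : H ≤ p) (a0 : ZMod p)
    {s : ℕ} (hs : s < H) :
    H ≤ rn ((range (2 * H)).image fun t : ℕ => a0 + (L : ZMod p) * (t : ZMod p))
      ((range H).image fun t : ℕ => 0 + (L : ZMod p) * (t : ZMod p))
      (a0 + (L : ZMod p) * (s : ZMod p)) := by
  unfold rn
  have h1 : ((range H).image fun j : ℕ =>
      ((a0 + (L : ZMod p) * ((s + j : ℕ) : ZMod p), 0 + (L : ZMod p) * (j : ZMod p)) :
        ZMod p × ZMod p)).card = H := by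
    rw [card_image_of_injOn, card_range]
    intro i hi j hj hij
    exact inj_prog hL hH 0 hi hj (congrArg Prod.snd hij)
  calc H = _ := h1.symm
    _ ≤ _ := by
      refine card_le_card fun v hv => ?_
      obtain ⟨j, hj, rfl⟩ := mem_image.1 hv
      rw [mem_range] at hj
      rw [mem_filter, mem_product]
      refine ⟨⟨mem_image.2 ⟨s + j, mem_range.2 (by omega), rfl⟩,
        mem_image.2 ⟨j, mem_range.2 hj, rfl⟩⟩, ?_⟩
      push_cast
      ring

theorem box1 (hK : KB) : Box1 := by
  intro p _ L H K a0 b0 δ hL hH hK1 hHp hKp hδ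
  set S := (range (2 * H)).image fun t : ℕ => a0 + (L : ZMod p) * (t : ZMod p) with hS
  set T := (range H).image fun t : ℕ => 0 + (L : ZMod p) * (t : ZMod p) with hT
  set S' := (range (2 * K)).image fun t : ℕ => b0 + (L : ZMod p) * (t : ZMod p) with hS'
  set T' := (range K).image fun t : ℕ => 0 + (L : ZMod p) * (t : ZMod p) with hT'
  have hp0 : (0 : ℝ) < p := by exact_mod_cast (Fact.out : p.Prime).pos
  have cS : S.card = 2 * H := by
    rw [hS, card_image_of_injOn (inj_prog hL hHp a0), card_range]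
  have cT : T.card = H := by
    rw [hT, card_image_of_injOn (inj_prog hL (by omega) 0), card_range]
  have cS' : S'.card = 2 * K := by
    rw [hS', card_image_of_injOn (inj_prog hL hKp b0), card_range]
  have cT' : T'.card = K := by
    rw [hT', card_image_of_injOn (inj_prog hL (by omega) 0), card_range]
  set W := (range H ×ˢ range K).filter fun v : ℕ × ℕ =>
    (a0 + (L : ZMod p) * v.1) * (b0 + (L : ZMod p) * v.2) = δ with hW
  have h1 := hyp hK S T S' T' δ hδ
  have h2 : ∑ x : (ZMod p)ˣ, rr S T x * rr S' T' (δ * ((x⁻¹ : (ZMod p)ˣ) : ZMod p)) =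
      ((∑ x : (ZMod p)ˣ, rn S T x * rn S' T' (δ * ((x⁻¹ : (ZMod p)ˣ) : ZMod p)) : ℕ) : ℂ) := by
    push_cast
    exact sum_congr rfl fun x _ => by rw [rr_rn, rr_rn]
  rw [h2, Complex.norm_natCast, cS, cT, cS', cT'] at h1
  have h3 : W.card * (H * K) ≤
      ∑ x : (ZMod p)ˣ, rn S T x * rn S' T' (δ * ((x⁻¹ : (ZMod p)ˣ) : ZMod p)) := by
    classical
    set G : Finset (ZMod p)ˣ := univ.filter fun x : (ZMod p)ˣ => H * K ≤
      rn S T x * rn S' T' (δ * ((x⁻¹ : (ZMod p)ˣ) : ZMod p)) with hG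
    have h4 : W.card ≤ G.card := by
      have hu : ∀ v ∈ W, a0 + (L : ZMod p) * (v.1 : ZMod p) ≠ 0 := by
        intro v hv h0
        rw [hW, mem_filter, h0, zero_mul] at hv
        exact hδ hv.2.symm
      refine card_le_card_of_injOn (fun v => if h : a0 + (L : ZMod p) * (v.1 : ZMod p) ≠ 0 then
        Units.mk0 _ h else 1) ?_ ?_
      · intro v hv
        have hv0 := hu v hv
        rw [mem_coe, hW, mem_filter, mem_product, mem_range, mem_range] at hv
        rw [mem_coe, hG, mem_filter]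
        refine ⟨mem_univ _, ?_⟩
        simp only
        rw [dif_pos hv0, Units.val_mk0]
        have h5 : δ * (((Units.mk0 _ hv0)⁻¹ : (ZMod p)ˣ) : ZMod p) =
            b0 + (L : ZMod p) * (v.2 : ZMod p) := by
          rw [← hv.2, Units.val_inv_eq_inv_val, Units.val_mk0]
          field_simp
        rw [h5]
        exact Nat.mul_le_mul (rn_ge hL (by omega) a0 hv.1.1) (rn_ge hL (by omega) b0 hv.1.2)
      · intro v hv w hw hvw
        have hv0 := hu v hv
        have hw0 := hu w hw
        simp only at hvw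
        rw [dif_pos hv0, dif_pos hw0] at hvw
        have h5 := congrArg Units.val hvw
        rw [Units.val_mk0, Units.val_mk0] at h5
        rw [mem_coe, hW, mem_filter, mem_product] at hv hw
        have h6 : v.1 = w.1 := inj_prog hL (show H ≤ p by omega) a0 (mem_coe.2 hv.1.1)
          (mem_coe.2 hw.1.1) h5
        have h7 : b0 + (L : ZMod p) * (v.2 : ZMod p) = b0 + (L : ZMod p) * (w.2 : ZMod p) := by
          have h8 := hv.2.trans hw.2.symm
          rw [h5] at h8
          exact mul_left_cancel₀ hw0 h8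
        have h8 : v.2 = w.2 := inj_prog hL (show K ≤ p by omega) b0 (mem_coe.2 hv.1.2)
          (mem_coe.2 hw.1.2) h7
        exact Prod.ext h6 h8
    calc W.card * (H * K) ≤ G.card * (H * K) := Nat.mul_le_mul_right _ h4
      _ = ∑ x ∈ G, H * K := by rw [sum_const, smul_eq_mul]
      _ ≤ ∑ x ∈ G, rn S T x * rn S' T' (δ * ((x⁻¹ : (ZMod p)ˣ) : ZMod p)) :=
          sum_le_sum fun x hx => (mem_filter.1 hx).2
      _ ≤ _ := sum_le_sum_of_subset (filter_subset _ _)
  have hH' : (1 : ℝ) ≤ H := by exact_mod_cast hH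
  have hK' : (1 : ℝ) ≤ K := by exact_mod_cast hK1
  have h4 : (W.card : ℝ) * (H * K) ≤ (4 * H * K / p + 4 * Real.sqrt p) * (H * K) := by
    have h5 : (W.card : ℝ) * (H * K) ≤ ((∑ x : (ZMod p)ˣ, rn S T x *
        rn S' T' (δ * ((x⁻¹ : (ZMod p)ˣ) : ZMod p)) : ℕ) : ℝ) := by exact_mod_cast h3
    refine (h5.trans h1).trans (le_of_eq ?_)
    push_cast
    have h6 : Real.sqrt (2 * (H : ℝ) * H) * Real.sqrt (2 * (K : ℝ) * K) = 2 * (H * K) := by
      rw [← Real.sqrt_mul (by positivity)]
      have : 2 * (H : ℝ) * H * (2 * (K : ℝ) * K) = (2 * (H * K)) ^ 2 := by ring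
      rw [this, Real.sqrt_sq (by positivity)]
    rw [h6]
    field_simp
    ring
  exact le_of_mul_le_mul_right h4 (by positivity)

end Pool.Agent.Zk11.LC
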