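import Pool.Agent.Zk11.LC.Cnt

/-!
The number of coincidences of the values `ρ(p) + m p`, where `ρ` is constant on the blocks.
-/

set_option autoImplicit false

namespace Pool.Agent.Zk11.LC

open Finset

/-- the values -/
def val (ρ : ℕ → ℕ → ℤ) (h L m p : ℕ) : ℤ := ρ (p / h) (p % L) + m * p

/-- the initial value of a block -/
def base (ρ : ℕ → ℕ → ℤ) (h m : ℕ) (β : ℕ × ℕ) : ℤ := ρ β.1 β.2 + m * (β.1 * h)

/-- the residue of a block -/
def res (ρ : ℕ → ℕ → ℤ) (L m : ℕ) (β : ℕ × ℕ) : ℤ := (ρ β.1 β.2 + m * β.2) % L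

/-- the cells of a block -/
def kap (ρ : ℕ → ℕ → ℤ) (h L R m : ℕ) (β : ℕ × ℕ) : Finset (ℤ × ℤ) :=
  {(base ρ h m β / R, res ρ L m β), (base ρ h m β / R + 1, res ρ L m β)}

/-- the cell of a number -/
def cell (L R : ℕ) (n : ℤ) : ℤ × ℤ := (n / R, n % L)

theorem cell_mem (ρ : ℕ → ℕ → ℤ) {h L R m p : ℕ} (hh : 0 < h) (hR : 0 < R) (hm : m * h ≤ R) :
    cell L R (val ρ h L m p) ∈ kap ρ h L R m (p / h, p % L) := by
  have hp : (p : ℤ) = (p / h : ℕ) * h + (p % h : ℕ) := by
    have := Nat.div_add_mod p h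
    have h2 : ((h * (p / h) + p % h : ℕ) : ℤ) = p := by rw [this]
    push_cast at h2 ⊢
    linarith
  set t : ℤ := m * ((p % h : ℕ) : ℤ) with ht
  have ht0 : 0 ≤ t := by positivity
  have htR : t < R := by
    have h1 : p % h < h := Nat.mod_lt _ hh
    have h2 : m * (p % h) < R := by
      rcases Nat.eq_zero_or_pos m with h0 | h0
      · rw [h0, zero_mul]; exact hR
      · exact lt_of_lt_of_le (Nat.mul_lt_mul_of_pos_left h1 h0) hm
    rw [ht]
    exact_mod_cast h2
  have hR' : (0 : ℤ) < R := by exact_mod_cast hR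
  have hval : val ρ h L m p = base ρ h m (p / h, p % L) + t := by
    unfold val base
    rw [ht]
    conv_lhs => rw [hp]
    simp only
    ring
  have h2 : val ρ h L m p % L = res ρ L m (p / h, p % L) := by
    unfold val res
    simp only
    have h3 : ρ (p / h) (p % L) + (m : ℤ) * p ≡
        ρ (p / h) (p % L) + (m : ℤ) * ((p % L : ℕ) : ℤ) [ZMOD L] := by
      refine Int.ModEq.add_left _ (Int.ModEq.mul_left _ ?_)
      rw [Int.natCast_mod]
      exact (Int.mod_modEq _ _).symm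
    exact h3
  unfold cell kap
  rw [h2, mem_insert, mem_singleton]
  set B := base ρ h m (p / h, p % L) with hB
  have h4 := Int.emod_nonneg B hR'.ne'
  have h5 := Int.emod_lt_of_pos B hR'
  have h6 := Int.mul_ediv_add_emod B R
  rcases lt_or_ge (B % R + t) R with h7 | h7
  · left
    have h8 := (Int.ediv_emod_unique (a := B + t) (b := (R : ℤ)) (q := B / R)
      (r := B % R + t) hR').2 ⟨by linarith, by linarith, h7⟩
    rw [hval, h8.1]
  · right
    have h8 := (Int.ediv_emod_unique (a := B + t) (b := (R : ℤ)) (q := B / R + 1)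
      (r := B % R + t - R) hR').2 ⟨by linarith, by linarith, by linarith⟩
    rw [hval, h8.1]

/-- the pairs of blocks with a common cell -/
def AA (ρ : ℕ → ℕ → ℤ) (h L R : ℕ) (ℬ : Finset (ℕ × ℕ)) (m m' : ℕ) : ℕ :=
  ((ℬ ×ˢ ℬ).filter fun v => (kap ρ h L R m v.1 ∩ kap ρ h L R m' v.2).Nonempty).card

/-- the coincidences for two values of `m` -/
def TT (ρ : ℕ → ℕ → ℤ) (h L : ℕ) (Q : Finset ℕ) (m m' : ℕ) : ℕ :=
  ((Q ×ˢ Q).filter fun v => val ρ h L m v.1 = val ρ h L m' v.2).card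

theorem TT_le (ρ : ℕ → ℕ → ℤ) {h L R : ℕ} (hh : 0 < h) (hL : 0 < L) (hR : 0 < R)
    {Q : Finset ℕ} {ℬ : Finset (ℕ × ℕ)} (hQ : ∀ p ∈ Q, (p / h, p % L) ∈ ℬ) {m m' : ℕ}
    (hm : m.Prime) (hm' : m'.Prime) (hmR : m * h ≤ R) (hmR' : m' * h ≤ R) (hmL : ¬ m' ∣ L)
    {y : ℝ} (hy : 0 < y) (hmy : y ≤ m') :
    (TT ρ h L Q m m' : ℝ) ≤ AA ρ h L R ℬ m m' *
      (if m = m' then (h : ℝ) / L + 1 else h / (y * L) + 1) := by
  have hL' : (0 : ℝ) < L := by exact_mod_cast hL
  have hh' : (0 : ℝ) < h := by exact_mod_cast hh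
  have h1 : TT ρ h L Q m m' = ∑ w ∈ ℬ ×ˢ ℬ, ((Q ×ˢ Q).filter fun v =>
      val ρ h L m v.1 = val ρ h L m' v.2 ∧
        (((v.1 / h, v.1 % L), (v.2 / h, v.2 % L)) : (ℕ × ℕ) × (ℕ × ℕ)) = w).card := by
    unfold TT
    rw [card_eq_sum_card_fiberwise (f := fun v : ℕ × ℕ =>
      (((v.1 / h, v.1 % L), (v.2 / h, v.2 % L)) : (ℕ × ℕ) × (ℕ × ℕ))) (t := ℬ ×ˢ ℬ)]
    · refine sum_congr rfl fun w _ => ?_
      rw [filter_filter]
    · intro v hv
      rw [mem_coe, mem_filter, mem_product] at hv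
      rw [mem_coe, mem_product]
      exact ⟨hQ _ hv.1.1, hQ _ hv.1.2⟩
  rw [h1, AA, card_filter, Nat.cast_sum, Nat.cast_sum, sum_mul]
  refine sum_le_sum fun w _ => ?_
  set F := (Q ×ˢ Q).filter fun v => val ρ h L m v.1 = val ρ h L m' v.2 ∧
        (((v.1 / h, v.1 % L), (v.2 / h, v.2 % L)) : (ℕ × ℕ) × (ℕ × ℕ)) = w with hF
  have hFm : ∀ v ∈ F, v.1 ∈ Q ∧ v.2 ∈ Q ∧ val ρ h L m v.1 = val ρ h L m' v.2 ∧
      (v.1 / h, v.1 % L) = w.1 ∧ (v.2 / h, v.2 % L) = w.2 := by
    intro v hv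
    rw [hF, mem_filter, mem_product] at hv
    obtain ⟨⟨a1, a2⟩, a3, a4⟩ := hv
    refine ⟨a1, a2, a3, ?_, ?_⟩
    · rw [← a4]
    · rw [← a4]
  rcases F.eq_empty_or_nonempty with h0 | ⟨v0, hv0⟩
  · rw [h0, card_empty, Nat.cast_zero]
    split_ifs <;> positivity
  · obtain ⟨a1, a2, a3, a4, a5⟩ := hFm v0 hv0
    have hne : (kap ρ h L R m w.1 ∩ kap ρ h L R m' w.2).Nonempty := by
      refine ⟨cell L R (val ρ h L m v0.1), mem_inter.2 ⟨?_, ?_⟩⟩
      · have := cell_mem ρ (p := v0.1) (L := L) hh hR hmR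
        rwa [a4] at this
      · rw [a3]
        have := cell_mem ρ (p := v0.2) (L := L) hh hR hmR'
        rwa [a5] at this
    rw [if_pos hne, Nat.cast_one, one_mul]
    have hinj : F.card ≤ (F.image fun v => v.1).card := by
      rw [card_image_of_injOn]
      intro v hv v' hv' hvv
      obtain ⟨b1, b2, b3, b4, b5⟩ := hFm v (mem_coe.1 hv)
      obtain ⟨c1, c2, c3, c4, c5⟩ := hFm v' (mem_coe.1 hv')
      simp only at hvv
      rw [hvv, c3] at b3
      unfold val at b3
      have e1 : v.2 / h = v'.2 / h := by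
        have := congrArg Prod.fst (b5.trans c5.symm)
        simpa using this
      have e2 : v.2 % L = v'.2 % L := by
        have := congrArg Prod.snd (b5.trans c5.symm)
        simpa using this
      rw [e1, e2] at b3
      have h3 : (m' : ℤ) * v'.2 = m' * v.2 := by linarith
      have hm0 : (m' : ℤ) ≠ 0 := by exact_mod_cast hm'.pos.ne'
      have h4 := mul_left_cancel₀ hm0 h3
      exact Prod.ext hvv (by exact_mod_cast h4.symm)
    have hhL : ∀ v ∈ F, ∀ v' ∈ F, v.1 ≤ v'.1 → L ∣ v'.1 - v.1 ∧ ((v'.1 : ℝ) - v.1) ≤ h := by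
      intro v hv v' hv' hle
      obtain ⟨b1, b2, b3, b4, b5⟩ := hFm v hv
      obtain ⟨c1, c2, c3, c4, c5⟩ := hFm v' hv'
      have e1 : v.1 / h = v'.1 / h := by
        have := congrArg Prod.fst (b4.trans c4.symm)
        simpa using this
      have e2 : v.1 % L = v'.1 % L := by
        have := congrArg Prod.snd (b4.trans c4.symm)
        simpa using this
      refine ⟨(Nat.modEq_iff_dvd' hle).1 e2, ?_⟩
      have h5 := Nat.div_add_mod v.1 h
      have h6 := Nat.div_add_mod v'.1 h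
      have h7 := Nat.mod_lt v'.1 hh
      rw [← e1] at h6
      have : v'.1 ≤ v.1 + h := by
        have : h * (v.1 / h) ≤ v.1 := Nat.mul_div_le _ _
        omega
      have : (v'.1 : ℝ) ≤ v.1 + h := by exact_mod_cast this
      linarith
    by_cases hmm : m = m'
    · rw [if_pos hmm]
      have h3 := cnt (F.image fun v => v.1) L hL h hh'.le (by
        intro a ha b hb hab
        obtain ⟨v, hv, rfl⟩ := mem_image.1 ha
        obtain ⟨v', hv', rfl⟩ := mem_image.1 hb
        exact hhL v hv v' hv' hab)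
      calc (F.card : ℝ) ≤ ((F.image fun v => v.1).card : ℝ) := by exact_mod_cast hinj
        _ ≤ _ := h3
    · rw [if_neg hmm]
      have hcop : Nat.Coprime m' L := (Nat.Prime.coprime_iff_not_dvd hm').2 hmL
      have h3 := cnt (F.image fun v => v.1) (m' * L) (Nat.mul_pos hm'.pos hL) h hh'.le (by
        intro a ha b hb hab
        obtain ⟨v, hv, rfl⟩ := mem_image.1 ha
        obtain ⟨v', hv', rfl⟩ := mem_image.1 hb
        obtain ⟨h4, h5⟩ := hhL v hv v' hv' hab
        refine ⟨hcop.mul_dvd_of_dvd_of_dvd ?_ h4, h5⟩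
        obtain ⟨b1, b2, b3, b4, b5⟩ := hFm v hv
        obtain ⟨c1, c2, c3, c4, c5⟩ := hFm v' hv'
        unfold val at b3 c3
        have e1 : v.1 / h = v'.1 / h := by
          have := congrArg Prod.fst (b4.trans c4.symm)
          simpa using this
        have e2 : v.1 % L = v'.1 % L := by
          have := congrArg Prod.snd (b4.trans c4.symm)
          simpa using this
        have e3 : v.2 / h = v'.2 / h := by
          have := congrArg Prod.fst (b5.trans c5.symm)
          simpa using this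
        have e4 : v.2 % L = v'.2 % L := by
          have := congrArg Prod.snd (b5.trans c5.symm)
          simpa using this
        rw [e1, e2, e3, e4] at b3
        have h6 : (m : ℤ) * ((v'.1 - v.1 : ℕ) : ℤ) = m' * ((v'.2 : ℤ) - v.2) := by
          rw [Nat.cast_sub hab]
          linarith
        have h7 : (m' : ℤ) ∣ ((m * (v'.1 - v.1) : ℕ) : ℤ) := by
          rw [Nat.cast_mul, h6]
          exact dvd_mul_right _ _
        have h8 : m' ∣ m * (v'.1 - v.1) := Int.natCast_dvd_natCast.1 h7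
        exact Nat.Coprime.dvd_of_dvd_mul_left
          ((Nat.coprime_primes hm' hm).2 (Ne.symm hmm)) h8)
      calc (F.card : ℝ) ≤ ((F.image fun v => v.1).card : ℝ) := by exact_mod_cast hinj
        _ ≤ _ := h3
        _ ≤ _ := by
          have : (h : ℝ) / ((m' * L : ℕ) : ℝ) ≤ h / (y * L) := by
            push_cast
            gcongr
          linarith

end Pool.Agent.Zk11.LC
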