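import Pool.Agent.Zk11.LC.Total
import Pool.Agent.R416.CV.Asym

/-!
Locally constant choices of residue classes: asymptotic form.
-/

set_option autoImplicit false

namespace Pool.Agent.Zk11.LC

open Finset Filter Topology
open Pool.Agent.H170R2.PC

theorem image_le {α : ℝ} {N h L : ℕ} {a : (p : ℕ) → ZMod p} {r : ℕ → ℕ → ℕ} {ℳ Q : Finset ℕ}
    (s : ℤ) (hs : s * s = 1) (hQ : Q ⊆ PD α N)
    (ha : ∀ p ∈ Q, a p = (r (p / h) (p % L) : ZMod p))
    (hb : ∀ m ∈ ℳ, ∀ p ∈ Q, 1 ≤ (r (p / h) (p % L) : ℤ) + s * (m * p) ∧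
      (r (p / h) (p % L) : ℤ) + s * (m * p) ≤ N) :
    ((ℳ ×ˢ Q).image fun w => val (fun j b => s * r j b) h L w.1 w.2).card ≤
      coveredCount α N a := by
  classical
  rw [coveredCount_eq]
  have key : ∀ w ∈ ℳ ×ˢ Q, s * val (fun j b => s * r j b) h L w.1 w.2 =
      (r (w.2 / h) (w.2 % L) : ℤ) + s * (w.1 * w.2) := by
    intro w _
    unfold val
    rw [mul_add, ← mul_assoc, hs, one_mul]
  refine card_le_card_of_injOn (fun v => (s * v).toNat) ?_ ?_
  · intro v hv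
    obtain ⟨w, hw, rfl⟩ := mem_image.1 (mem_coe.1 hv)
    have hw' := mem_product.1 hw
    obtain ⟨h1, h2⟩ := hb w.1 hw'.1 w.2 hw'.2
    simp only
    rw [key w hw, mem_coe, Cov, mem_filter, mem_Icc]
    refine ⟨⟨by omega, by omega⟩, w.2, hQ hw'.2, ?_⟩
    have h3 : ((((r (w.2 / h) (w.2 % L) : ℤ) + s * (w.1 * w.2)).toNat : ℕ) : ℤ) =
        (r (w.2 / h) (w.2 % L) : ℤ) + s * (w.1 * w.2) := Int.toNat_of_nonneg (by omega)
    have h4 : (((((r (w.2 / h) (w.2 % L) : ℤ) + s * (w.1 * w.2)).toNat : ℕ) : ℤ) : ZMod w.2) =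
        (((r (w.2 / h) (w.2 % L) : ℤ) + s * (w.1 * w.2) : ℤ) : ZMod w.2) := by rw [h3]
    rw [Int.cast_natCast] at h4
    rw [h4, ha w.2 hw'.2]
    push_cast
    simp
  · intro v hv v' hv' hvv
    obtain ⟨w, hw, rfl⟩ := mem_image.1 (mem_coe.1 hv)
    obtain ⟨w', hw', rfl⟩ := mem_image.1 (mem_coe.1 hv')
    have h1 := hb w.1 (mem_product.1 hw).1 w.2 (mem_product.1 hw).2
    have h2 := hb w'.1 (mem_product.1 hw').1 w'.2 (mem_product.1 hw').2
    simp only at hvv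
    have e1 := key w hw
    have e2 := key w' hw'
    have h3 : s * val (fun j b => s * r j b) h L w.1 w.2 =
        s * val (fun j b => s * r j b) h L w'.1 w'.2 := by
      rw [e1, e2] at hvv ⊢
      omega
    have h4 := congrArg (fun z => s * z) h3
    simp only [← mul_assoc, hs, one_mul] at h4
    exact h4

theorem half {Q : Finset ℕ} (P : ℕ → Prop) [DecidablePred P] :
    (Q.card : ℝ) / 2 ≤ ((Q.filter P).card : ℝ) ∨
      (Q.card : ℝ) / 2 ≤ ((Q.filter fun p => ¬ P p).card : ℝ) := by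
  have h1 : ((Q.filter P).card : ℝ) + ((Q.filter fun p => ¬ P p).card : ℝ) = Q.card := by
    exact_mod_cast card_filter_add_card_filter_not (s := Q) P
  by_contra hcon
  push Not at hcon
  linarith

/-- the inequality for the number of covered integers -/
theorem ineq {S T M K q x y N τ l U : ℝ} (hN : 0 < N) (hx : 0 < x) (hy : 0 < y)
    (hxy : x * y = N / 8) (hτ : 1 ≤ τ) (hl : 1 ≤ l) (hq : 0 ≤ q) (hU : 0 < U)
    (hT : T ≤ 3456 * U * τ * l) (hM : y / (8 * l) ≤ M) (hK : x ≤ 4 * (K * l)) (hS0 : 0 ≤ S)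
    (hS : (M * (q / 2)) ^ 2 ≤ S * T) :
    (q / K) ^ 2 * N ^ 2 / (10 ^ 9 * τ * l ^ 5 * U) ≤ S := by
  have hl0 : 0 < l := by linarith
  have hτ0 : 0 < τ := by linarith
  have hK0 : 0 < K := by
    by_contra hcon
    push Not at hcon
    nlinarith
  have h1 : (y / (8 * l) * (q / 2)) ^ 2 ≤ S * (3456 * U * τ * l) := by
    calc (y / (8 * l) * (q / 2)) ^ 2 ≤ (M * (q / 2)) ^ 2 := by gcongr
      _ ≤ S * T := hS
      _ ≤ _ := mul_le_mul_of_nonneg_left hT hS0
  rw [div_le_iff₀ (by positivity)]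
  have h2 : (q / K) ^ 2 ≤ q ^ 2 * (16 * l ^ 2) / x ^ 2 := by
    rw [div_pow, div_le_div_iff₀ (by positivity) (by positivity)]
    have : x ^ 2 ≤ (4 * (K * l)) ^ 2 := pow_le_pow_left₀ hx.le hK 2
    calc q ^ 2 * x ^ 2 ≤ q ^ 2 * (4 * (K * l)) ^ 2 := by gcongr
      _ = _ := by ring
  have h3 : q ^ 2 * y ^ 2 ≤ S * (256 * 3456 * U * τ * l ^ 3) := by
    have h4 : (y / (8 * l) * (q / 2)) ^ 2 = q ^ 2 * y ^ 2 / (256 * l ^ 2) := by
      field_simp
      ring
    rw [h4, div_le_iff₀ (by positivity)] at h1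
    calc q ^ 2 * y ^ 2 ≤ S * (3456 * U * τ * l) * (256 * l ^ 2) := h1
      _ = _ := by ring
  have h5 : N ^ 2 = 64 * x ^ 2 * y ^ 2 := by
    have : N = 8 * (x * y) := by linarith
    rw [this]
    ring
  calc (q / K) ^ 2 * N ^ 2 ≤ q ^ 2 * (16 * l ^ 2) / x ^ 2 * N ^ 2 := by gcongr
    _ = 1024 * l ^ 2 * (q ^ 2 * y ^ 2) := by
        rw [h5]
        field_simp
        ring
    _ ≤ 1024 * l ^ 2 * (S * (256 * 3456 * U * τ * l ^ 3)) := by gcongr
    _ = S * (1024 * 256 * 3456 * τ * l ^ 5 * U) := by ring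
    _ ≤ S * (10 ^ 9 * τ * l ^ 5 * U) := by
        have : (1024 * 256 * 3456 : ℝ) ≤ 10 ^ 9 := by norm_num
        gcongr

/-- the number of the `m` -/
theorem ev_m {β : ℝ} (hβ : 0 < β) : ∀ᶠ N : ℕ in atTop, (N : ℝ) ^ β / 8 / 4 ≤
    (((range ⌈2 * ((N : ℝ) ^ β / 8)⌉₊).filter (fun p : ℕ => p.Prime ∧ (N : ℝ) ^ β / 8 ≤ (p : ℝ) ∧
      (p : ℝ) < 2 * ((N : ℝ) ^ β / 8))).card : ℝ) * Real.log (2 * ((N : ℝ) ^ β / 8)) := by
  have hten : Tendsto (fun N : ℕ => (N : ℝ) ^ β / 8) atTop atTop :=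
    ((tendsto_rpow_atTop hβ).comp tendsto_natCast_atTop_atTop).atTop_div_const (by norm_num)
  exact hten.eventually Pool.Agent.Results.MP_bb5cc8_nt.HairbrushExponent.count_primes

theorem ev_log {β : ℝ} (hβ : 0 < β) {C : ℝ} (hC : 0 < C) : ∀ᶠ N : ℕ in atTop,
    C * Real.log N ≤ (N : ℝ) ^ β := by
  have h1 := (isLittleO_log_rpow_atTop hβ).bound (show (0 : ℝ) < 1 / C by positivity)
  have h2 := tendsto_natCast_atTop_atTop (R := ℝ)
  filter_upwards [h2.eventually h1, eventually_ge_atTop 1] with N hN hN1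
  have hN0 : (1 : ℝ) ≤ N := by exact_mod_cast hN1
  rw [Real.norm_eq_abs, Real.norm_eq_abs, abs_of_nonneg (Real.log_nonneg hN0),
    abs_of_nonneg (by positivity), one_div, inv_mul_eq_div, le_div_iff₀ hC] at hN
  linarith

/-- the numerical part of the bound for the number of coincidences -/
theorem numT {J L h x y z τ l lJ M : ℝ} (hJ1 : 1 ≤ J) (hL : 1 ≤ L) (hLh : L ≤ h) (hx : 0 < x)
    (hy : 9 ≤ y) (hyz : y ≤ z) (hτ : 1 ≤ τ) (hl : 1 ≤ l) (hlJ0 : 0 ≤ lJ) (hlJ : lJ ≤ l)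
    (hM0 : 0 ≤ M) (hM : M ≤ 3 * y) (hJh : J ≤ 3 * x / h) :
    J * L * (48 * y * τ * (2 + lJ) + J * L) * (h / L + 1 + 2 * M * (h / (y * L) + 1)) ≤
      3456 * ((z + L * x / h) * (x + L * x / h * z)) * τ * l := by
  have hL0 : 0 < L := by linarith
  have hh : 0 < h := by linarith
  have hy0 : 0 < y := by linarith
  have hz0 : 0 < z := by linarith
  have hτ0 : 0 < τ := by linarith
  have hl0 : 0 < l := by linarith
  have hJ0 : 0 < J := by linarith
  set Λ := L * x / h with hΛ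
  have hΛ0 : 0 < Λ := by positivity
  have hJL : J * L ≤ 3 * Λ := by
    calc J * L ≤ (3 * x / h) * L := by gcongr
      _ = 3 * Λ := by rw [hΛ]; ring
  have hJhx : J * h ≤ 3 * x := by rwa [le_div_iff₀ hh] at hJh
  have e1 : h / L + 1 ≤ 2 * (h / L) := by
    have : 1 ≤ h / L := by
      rw [le_div_iff₀ hL0, one_mul]
      exact hLh
    linarith
  have e3 : J * L * (h / L + 1 + 2 * M * (h / (y * L) + 1)) ≤ 24 * (x + Λ * z) := by
    have e5 : h / (y * L) = h / L / y := by rw [div_div, mul_comm L y]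
    calc J * L * (h / L + 1 + 2 * M * (h / (y * L) + 1)) ≤
        J * L * (2 * (h / L) + 2 * (3 * y) * (h / (y * L) + 1)) := by gcongr
      _ = 8 * (J * (L * (h / L))) + 6 * y * (J * L) := by
        rw [e5]
        field_simp
        ring
      _ = 8 * (J * h) + 6 * y * (J * L) := by
        have : L * (h / L) = h := by field_simp
        rw [this]
      _ ≤ 8 * (3 * x) + 6 * z * (3 * Λ) := by gcongr
      _ ≤ _ := by nlinarith [mul_pos hΛ0 hz0]
  have e4 : 48 * y * τ * (2 + lJ) + J * L ≤ 144 * (z + Λ) * τ * l := by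
    have h1 : (1 : ℝ) ≤ τ * l := one_le_mul_of_one_le_of_one_le hτ hl
    have h2 : J * L ≤ 144 * Λ * (τ * l) := by
      calc J * L ≤ 3 * Λ * 1 := by linarith
        _ ≤ 144 * Λ * (τ * l) := by gcongr; norm_num
    have h3 : 48 * y * τ * (2 + lJ) ≤ 144 * z * τ * l := by
      calc 48 * y * τ * (2 + lJ) ≤ 48 * z * τ * (2 * l + l) := by
            gcongr
            linarith
        _ = _ := by ring
    calc 48 * y * τ * (2 + lJ) + J * L ≤ 144 * z * τ * l + 144 * Λ * (τ * l) := by linarith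
      _ = _ := by ring
  have e6 : 0 ≤ J * L * (h / L + 1 + 2 * M * (h / (y * L) + 1)) := by positivity
  calc J * L * (48 * y * τ * (2 + lJ) + J * L) * (h / L + 1 + 2 * M * (h / (y * L) + 1)) =
      (48 * y * τ * (2 + lJ) + J * L) * (J * L * (h / L + 1 + 2 * M * (h / (y * L) + 1))) := by ring
    _ ≤ (144 * (z + Λ) * τ * l) * (24 * (x + Λ * z)) := by gcongr
    _ = _ := by ring

/-- few large primes divide `L` -/
theorem few_dvd {S : Finset ℕ} {L : ℕ} {y : ℝ} (hy : 1 ≤ y) (hL : 0 < L)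
    (hS : ∀ m ∈ S, m.Prime ∧ y ≤ m) :
    (((S.filter fun m => m ∣ L).card : ℕ) : ℝ) * Real.log y ≤ Real.log L := by
  set A := S.filter fun m => m ∣ L with hA
  have h1 : ∏ p ∈ A, p ∣ L := Finset.prod_primes_dvd _
    (fun p hp => (hS p (mem_filter.1 hp).1).1.prime) fun p hp => (mem_filter.1 hp).2
  have h2 : ∏ p ∈ A, p ≤ L := Nat.le_of_dvd hL h1
  have h3 : y ^ A.card ≤ L := by
    calc y ^ A.card = ∏ _p ∈ A, y := by rw [prod_const]
      _ ≤ ∏ p ∈ A, (p : ℝ) := prod_le_prod (fun _ _ => by linarith) fun p hp =>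
          (hS p (mem_filter.1 hp).1).2
      _ = ((∏ p ∈ A, p : ℕ) : ℝ) := by push_cast; rfl
      _ ≤ L := by exact_mod_cast h2
  rw [← Real.log_pow]
  exact Real.log_le_log (by positivity) h3

theorem main {α : ℝ} (h0 : 0 < α) (h1 : α < 1) : ∃ N₀ : ℕ, ∀ N ≥ N₀, ∀ h L : ℕ, 1 ≤ L →
    L ≤ h → (h : ℝ) ≤ (N : ℝ) ^ α →
    ∀ r : ℕ → ℕ → ℕ, (∀ j b, 1 ≤ r j b ∧ r j b ≤ N) → ∀ (a : (p : ℕ) → ZMod p) (Q : Finset ℕ),
      Q ⊆ PD α N → (∀ p ∈ Q, a p = (r (p / h) (p % L) : ZMod p)) →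
      ((Q.card : ℝ) / (PD α N).card) ^ 2 * (N : ℝ) ^ 2 /
        (10 ^ 9 * L.divisors.card * Real.log N ^ 5 *
          (((N : ℝ) ^ (1 - α) + L * (N : ℝ) ^ α / h) *
            ((N : ℝ) ^ α + L * (N : ℝ) ^ α / h * (N : ℝ) ^ (1 - α)))) ≤
        (coveredCount α N a : ℝ) := by
  classical
  have hβ : 0 < 1 - α := by linarith
  have ev1 := Pool.Agent.R416.CV.ev_primes h0 h1
  have ev2 := ev_m hβ
  have ev3 := ev_log hβ (show 0 < 128 / (1 - α) by positivity)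
  have ev4 := ev_const 72 hβ
  have ev5 := ev_const 8 (show 0 < (1 - α) / 2 by linarith)
  obtain ⟨N₀, hN₀⟩ := eventually_atTop.1 (((((ev1.and ev2).and ev3).and ev4).and ev5).and
    (eventually_ge_atTop 3))
  refine ⟨N₀, fun N hN h L hL hLh hhx r hr a Q hQ ha => ?_⟩
  obtain ⟨⟨⟨⟨⟨hK, hm⟩, hlog⟩, h72⟩, h8⟩, hN3⟩ := hN₀ N hN
  have hN0 : (0 : ℝ) < N := by exact_mod_cast (by omega : 0 < N)
  have hN1 : (1 : ℝ) ≤ N := by exact_mod_cast (by omega : 1 ≤ N)
  have hN3' : (3 : ℝ) ≤ N := by exact_mod_cast hN3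
  set l := Real.log N with hl
  have hl1 : 1 ≤ l := by
    rw [hl, Real.le_log_iff_exp_le hN0]
    have := Real.exp_one_lt_d9
    linarith
  set x : ℝ := (N : ℝ) ^ α with hx
  set z : ℝ := (N : ℝ) ^ (1 - α) with hz
  set y : ℝ := z / 8 with hy
  have hx0 : 0 < x := Real.rpow_pos_of_pos hN0 _
  have hz0 : 0 < z := Real.rpow_pos_of_pos hN0 _
  have hy9 : 9 ≤ y := by rw [hy]; linarith
  have hy0 : 0 < y := by linarith
  have hyz : y ≤ z := by rw [hy]; linarith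
  have hxz : x * z = N := by
    rw [hx, hz, ← Real.rpow_add hN0]
    norm_num
  have hxy : x * y = N / 8 := by
    rw [hy]
    linarith
  have hxN : 3 * x ≤ N := by
    rw [← hxz]
    nlinarith
  have hLr : (1 : ℝ) ≤ L := by exact_mod_cast hL
  have hL0 : (0 : ℝ) < L := by linarith
  have hLh' : (L : ℝ) ≤ h := by exact_mod_cast hLh
  have hh0 : 0 < h := by omega
  have hh0' : (0 : ℝ) < h := by exact_mod_cast hh0
  have hh1 : (1 : ℝ) ≤ h := by exact_mod_cast hh0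
  -- the number of blocks
  set J : ℕ := ⌊2 * x / h⌋₊ + 1 with hJ
  have hxh : 1 ≤ x / h := by rw [le_div_iff₀ hh0', one_mul]; exact hhx
  have hJx : (J : ℝ) ≤ 3 * x / h := by
    rw [hJ]
    push_cast
    have h3 := Nat.floor_le (show 0 ≤ 2 * x / h by positivity)
    have h4 : 3 * x / h = 2 * x / h + x / h := by ring
    linarith
  have hJ1 : (1 : ℝ) ≤ J := by
    rw [hJ]
    push_cast
    linarith [Nat.cast_nonneg (α := ℝ) ⌊2 * x / h⌋₊]
  have hJN : (J : ℝ) ≤ N := by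
    calc (J : ℝ) ≤ 3 * x / h := hJx
      _ ≤ 3 * x := div_le_self (by positivity) hh1
      _ ≤ N := hxN
  have hlogJ : Real.log J ≤ l := Real.log_le_log (by linarith) hJN
  -- the range of `m`
  set ℳ₀ := (range ⌈2 * y⌉₊).filter (fun p : ℕ => p.Prime ∧ y ≤ (p : ℝ) ∧ (p : ℝ) < 2 * y) with hM0
  set ℳ := ℳ₀.filter fun m => ¬ m ∣ L with hM
  have hMp : ∀ m ∈ ℳ, m.Prime ∧ ¬ m ∣ L ∧ y ≤ m ∧ (m : ℝ) ≤ 2 * y := by
    intro m hm'
    rw [hM, mem_filter, hM0, mem_filter] at hm'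
    exact ⟨hm'.1.2.1, hm'.2, hm'.1.2.2.1, hm'.1.2.2.2.le⟩
  have hMc : (ℳ.card : ℝ) ≤ 3 * y := by
    have h3 : ℳ.card ≤ ⌈2 * y⌉₊ := by
      calc ℳ.card ≤ (range ⌈2 * y⌉₊).card :=
            card_le_card ((filter_subset _ _).trans (filter_subset _ _))
        _ = _ := card_range _
    have h4 : (⌈2 * y⌉₊ : ℝ) < 2 * y + 1 := Nat.ceil_lt_add_one (by positivity)
    have h5 : (ℳ.card : ℝ) ≤ (⌈2 * y⌉₊ : ℝ) := by exact_mod_cast h3
    linarith
  have hMge : y / (8 * l) ≤ (ℳ.card : ℝ) := by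
    have h3 : (((ℳ₀.filter fun m => m ∣ L).card : ℕ) : ℝ) ≤ y / (8 * l) := by
      have h4 := few_dvd (S := ℳ₀) (L := L) (y := y) (by linarith) hL (by
        intro m hm'
        rw [hM0, mem_filter] at hm'
        exact ⟨hm'.2.1, hm'.2.2.1⟩)
      have h5 : Real.log L ≤ l := by
        refine Real.log_le_log hL0 ?_
        linarith
      have h6 : (1 - α) / 2 * l ≤ Real.log y := by
        rw [hl, ← Real.log_rpow hN0]
        refine Real.log_le_log (Real.rpow_pos_of_pos hN0 _) ?_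
        have h7 : (N : ℝ) ^ ((1 - α) / 2) * (N : ℝ) ^ ((1 - α) / 2) = z := by
          rw [← Real.rpow_add hN0, hz]
          congr 1
          ring
        have h9 : 0 < (N : ℝ) ^ ((1 - α) / 2) := Real.rpow_pos_of_pos hN0 _
        rw [hy, ← h7, le_div_iff₀ (by norm_num)]
        exact mul_le_mul_of_nonneg_left h8 h9.le
      have h7 : (((ℳ₀.filter fun m => m ∣ L).card : ℕ) : ℝ) * ((1 - α) / 2) ≤ 1 := by
        have h9 : (((ℳ₀.filter fun m => m ∣ L).card : ℕ) : ℝ) * ((1 - α) / 2) * l ≤ 1 * l := by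
          calc _ = (((ℳ₀.filter fun m => m ∣ L).card : ℕ) : ℝ) * ((1 - α) / 2 * l) := by ring
            _ ≤ (((ℳ₀.filter fun m => m ∣ L).card : ℕ) : ℝ) * Real.log y :=
              mul_le_mul_of_nonneg_left h6 (Nat.cast_nonneg _)
            _ ≤ 1 * l := by linarith
        exact le_of_mul_le_mul_right h9 (by linarith)
      have h9 : (((ℳ₀.filter fun m => m ∣ L).card : ℕ) : ℝ) ≤ 2 / (1 - α) := by
        rw [le_div_iff₀ hβ]
        linarith
      refine h9.trans ?_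
      rw [le_div_iff₀ (by linarith)]
      have h10 : 128 / (1 - α) * l ≤ z := hlog
      have h11 : 2 / (1 - α) * (8 * l) = 128 / (1 - α) * l / 8 := by ring
      rw [h11, hy]
      linarith
    have h4 : (ℳ₀.filter fun m => m ∣ L).card + ℳ.card = ℳ₀.card :=
      card_filter_add_card_filter_not (s := ℳ₀) (fun m => m ∣ L)
    have h5 : (((ℳ₀.filter fun m => m ∣ L).card : ℕ) : ℝ) + ℳ.card = ℳ₀.card := by
      exact_mod_cast h4
    have h6 : Real.log (2 * y) ≤ l := by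
      refine Real.log_le_log (by positivity) ?_
      have : z ≤ N := by
        calc z = (N : ℝ) ^ (1 - α) := rfl
          _ ≤ (N : ℝ) ^ (1 : ℝ) := Real.rpow_le_rpow_of_exponent_le hN1 (by linarith)
          _ = N := Real.rpow_one _
      rw [hy]
      linarith
    have h7 : y / 4 ≤ (ℳ₀.card : ℝ) * l :=
      hm.trans (mul_le_mul_of_nonneg_left h6 (Nat.cast_nonneg _))
    have h10 : y / (4 * l) ≤ (ℳ₀.card : ℝ) := by
      rw [div_le_iff₀ (by linarith)]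
      linarith
    have h11 : y / (4 * l) = 2 * (y / (8 * l)) := by
      field_simp
      ring
    linarith
  -- the bound for the number of coincidences
  set R : ℕ := ⌈2 * y⌉₊ * h with hR
  have hc1 : 2 * y ≤ (⌈2 * y⌉₊ : ℝ) := Nat.le_ceil _
  have hc2 : (⌈2 * y⌉₊ : ℝ) < 2 * y + 1 := Nat.ceil_lt_add_one (by positivity)
  have hR0 : 0 < R := by
    have : 0 < ⌈2 * y⌉₊ := Nat.ceil_pos.2 (by positivity)
    exact Nat.mul_pos this hh0
  have hRm : 2 * y * h ≤ R := by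
    rw [hR]
    push_cast
    gcongr
  have hRy : (R : ℝ) ≤ 3 * y * h := by
    rw [hR]
    push_cast
    refine mul_le_mul_of_nonneg_right ?_ hh0'.le
    linarith
  set τ : ℝ := (L.divisors.card : ℝ) with hτ
  have hτ1 : 1 ≤ τ := by
    have : 0 < L.divisors.card := card_pos.2 ⟨1, Nat.one_mem_divisors.2 (by omega)⟩
    rw [hτ]
    exact_mod_cast this
  set U : ℝ := (z + L * x / h) * (x + L * x / h * z) with hU
  have hU0 : 0 < U := by positivity
  have hTb : ∀ (ρ : ℕ → ℕ → ℤ) (Q' : Finset ℕ), Q' ⊆ Q →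
      ((∑ m ∈ ℳ, ∑ m' ∈ ℳ, TT ρ h L Q' m m' : ℕ) : ℝ) ≤ 3456 * U * τ * l := by
    intro ρ Q' hQ'
    have h3 := total ρ (h := h) (L := L) (R := R) (J := J) (Q := Q') (ℳ := ℳ) hh0 hL hR0 (by
      intro p hp
      obtain ⟨_, _, h4⟩ := mem_PD.1 (hQ (hQ' hp))
      rw [hJ, Nat.lt_succ_iff]
      refine Nat.le_floor ?_
      calc ((p / h : ℕ) : ℝ) ≤ (p : ℝ) / h := Nat.cast_div_le
        _ ≤ 2 * x / h := by gcongr) hy0 hMp hRy hRm
    exact h3.trans (numT hJ1 hLr hLh' hx0 hy9 hyz hτ1 hl1 (Real.log_nonneg hJ1) hlogJ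
      (Nat.cast_nonneg _) hMc hJx)
  -- the two cases
  have hS0 : (0 : ℝ) ≤ (coveredCount α N a : ℝ) := Nat.cast_nonneg _
  have hfin : ∀ (s : ℤ), s * s = 1 → ∀ Q' ⊆ Q, (Q.card : ℝ) / 2 ≤ Q'.card →
      (∀ m ∈ ℳ, ∀ p ∈ Q', 1 ≤ (r (p / h) (p % L) : ℤ) + s * (m * p) ∧
        (r (p / h) (p % L) : ℤ) + s * (m * p) ≤ N) →
      ((Q.card : ℝ) / (PD α N).card) ^ 2 * (N : ℝ) ^ 2 / (10 ^ 9 * τ * l ^ 5 * U) ≤
        (coveredCount α N a : ℝ) := by
    intro s hs Q' hQ' hhalf hb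
    have h3 := image_ge (fun j b => s * r j b) h L ℳ Q'
    have h4 := image_le (α := α) (N := N) (a := a) s hs (hQ'.trans hQ)
      (fun p hp => ha p (hQ' hp)) hb
    have h5 := hTb (fun j b => s * r j b) Q' hQ'
    refine ineq (M := (ℳ.card : ℝ)) (T := ((∑ m ∈ ℳ, ∑ m' ∈ ℳ,
      TT (fun j b => s * r j b) h L Q' m m' : ℕ) : ℝ)) hN0 hx0 hy0 hxy hτ1 hl1
      (Nat.cast_nonneg _) hU0 h5 hMge hK hS0 ?_
    calc ((ℳ.card : ℝ) * ((Q.card : ℝ) / 2)) ^ 2 ≤ ((ℳ.card : ℝ) * Q'.card) ^ 2 := by gcongr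
      _ ≤ ((((ℳ ×ˢ Q').image fun w => val (fun j b => s * r j b) h L w.1 w.2).card : ℕ) : ℝ) *
          ((∑ m ∈ ℳ, ∑ m' ∈ ℳ, TT (fun j b => s * r j b) h L Q' m m' : ℕ) : ℝ) := by
          exact_mod_cast h3
      _ ≤ _ := by
          refine mul_le_mul_of_nonneg_right ?_ (Nat.cast_nonneg _)
          exact_mod_cast h4
  have hmp : ∀ m ∈ ℳ, ∀ p ∈ Q, 2 * (m * p) ≤ N := by
    intro m hm' p hp
    have h3 := (hMp m hm').2.2.2
    have h4 := (mem_PD.1 (hQ hp)).2.2.le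
    have : (2 * (m * p) : ℝ) ≤ N := by
      calc (2 * (m * p) : ℝ) ≤ 2 * ((2 * y) * (2 * x)) := by gcongr
        _ = 8 * (x * y) := by ring
        _ = N := by rw [hxy]; ring
    exact_mod_cast this
  rcases half (Q := Q) (fun p => 2 * r (p / h) (p % L) ≤ N) with hcase | hcase
  · refine hfin 1 (by norm_num) _ (filter_subset _ _) hcase ?_
    intro m hm' p hp
    rw [mem_filter] at hp
    have h3 := hmp m hm' p hp.1
    have h4 := (hr (p / h) (p % L)).1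
    rw [one_mul]
    constructor
    · have : (0 : ℤ) ≤ (m : ℤ) * p := by positivity
      omega
    · have h5 : r (p / h) (p % L) + m * p ≤ N := by omega
      exact_mod_cast h5
  · refine hfin (-1) (by norm_num) _ (filter_subset _ _) hcase ?_
    intro m hm' p hp
    rw [mem_filter] at hp
    have h3 := hmp m hm' p hp.1
    have h4 := (hr (p / h) (p % L)).2
    have h6 : N < 2 * r (p / h) (p % L) := by omega
    have h7 : m * p < r (p / h) (p % L) := by omega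
    have h8 : (m : ℤ) * p < r (p / h) (p % L) := by exact_mod_cast h7
    have h9 : (0 : ℤ) ≤ (m : ℤ) * p := by positivity
    constructor <;> omega

end Pool.Agent.Zk11.LC
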