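import Pool.Agent.Zk11.LC.Core

/-!
The number of pairs of blocks with a common cell.
-/

set_option autoImplicit false

namespace Pool.Agent.Zk11.LC

open Finset

/-- the blocks in a cell -/
def NC (ρ : ℕ → ℕ → ℤ) (h L R : ℕ) (ℬ : Finset (ℕ × ℕ)) (m : ℕ) (c : ℤ × ℤ) : ℕ :=
  (ℬ.filter fun β => c ∈ kap ρ h L R m β).card

theorem NC_mul (ρ : ℕ → ℕ → ℤ) (h L R : ℕ) (ℬ : Finset (ℕ × ℕ)) (m m' : ℕ) (c : ℤ × ℤ) :
    NC ρ h L R ℬ m c * NC ρ h L R ℬ m' c =
      ∑ v ∈ ℬ ×ˢ ℬ, if c ∈ kap ρ h L R m v.1 ∩ kap ρ h L R m' v.2 then 1 else 0 := by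
  unfold NC
  rw [← card_product, ← card_filter]
  congr 1
  ext v
  simp only [mem_product, mem_filter, mem_inter]
  tauto

theorem AA_le (ρ : ℕ → ℕ → ℤ) (h L R : ℕ) {ℬ : Finset (ℕ × ℕ)} {m m' : ℕ}
    {C : Finset (ℤ × ℤ)} (hC : ∀ β ∈ ℬ, kap ρ h L R m β ⊆ C) :
    AA ρ h L R ℬ m m' ≤ ∑ c ∈ C, NC ρ h L R ℬ m c * NC ρ h L R ℬ m' c := by
  simp_rw [NC_mul]
  rw [sum_comm, AA, card_filter]
  refine sum_le_sum fun v hv => ?_
  by_cases h0 : (kap ρ h L R m v.1 ∩ kap ρ h L R m' v.2).Nonempty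
  · rw [if_pos h0]
    obtain ⟨c, hc⟩ := h0
    have hcC : c ∈ C := hC v.1 (mem_product.1 hv).1 (mem_inter.1 hc).1
    refine le_trans (le_of_eq ?_) (single_le_sum (f := fun c =>
      if c ∈ kap ρ h L R m v.1 ∩ kap ρ h L R m' v.2 then 1 else 0) (fun _ _ => Nat.zero_le _) hcC)
    rw [if_pos hc]
  · rw [if_neg h0]
    exact Nat.zero_le _

theorem NC_sq (ρ : ℕ → ℕ → ℤ) (h L R : ℕ) (ℬ : Finset (ℕ × ℕ)) (m : ℕ) (C : Finset (ℤ × ℤ)) :
    ∑ c ∈ C, NC ρ h L R ℬ m c ^ 2 ≤ 2 * AA ρ h L R ℬ m m := by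
  simp_rw [sq, NC_mul]
  rw [sum_comm, AA, card_filter, mul_sum]
  refine sum_le_sum fun v _ => ?_
  rw [← card_filter]
  by_cases h0 : (kap ρ h L R m v.1 ∩ kap ρ h L R m v.2).Nonempty
  · rw [if_pos h0, mul_one]
    refine (card_le_card (t := kap ρ h L R m v.1) ?_).trans card_le_two
    intro c hc
    exact (mem_inter.1 (mem_filter.1 hc).2).1
  · rw [if_neg h0, mul_zero, Nat.le_zero, card_eq_zero, filter_eq_empty_iff]
    exact fun c _ hc => h0 ⟨c, hc⟩

theorem sum_AA (ρ : ℕ → ℕ → ℤ) (h L R : ℕ) (ℬ : Finset (ℕ × ℕ)) (ℳ : Finset ℕ) :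
    ∑ m ∈ ℳ, ∑ m' ∈ ℳ, AA ρ h L R ℬ m m' ≤ 2 * ℳ.card * ∑ m ∈ ℳ, AA ρ h L R ℬ m m := by
  set C : Finset (ℤ × ℤ) := (ℳ ×ˢ ℬ).biUnion fun w => kap ρ h L R w.1 w.2 with hC
  have h1 : ∀ m ∈ ℳ, ∀ β ∈ ℬ, kap ρ h L R m β ⊆ C := fun m hm β hβ =>
    subset_biUnion_of_mem (fun w : ℕ × (ℕ × ℕ) => kap ρ h L R w.1 w.2)
      (mem_product.2 ⟨hm, hβ⟩ : (m, β) ∈ ℳ ×ˢ ℬ)
  calc ∑ m ∈ ℳ, ∑ m' ∈ ℳ, AA ρ h L R ℬ m m' ≤
      ∑ m ∈ ℳ, ∑ m' ∈ ℳ, ∑ c ∈ C, NC ρ h L R ℬ m c * NC ρ h L R ℬ m' c :=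
        sum_le_sum fun m hm => sum_le_sum fun m' _ => AA_le ρ h L R (h1 m hm)
    _ = ∑ c ∈ C, (∑ m ∈ ℳ, NC ρ h L R ℬ m c) ^ 2 := by
        have h2 : ∀ c, (∑ m ∈ ℳ, NC ρ h L R ℬ m c) ^ 2 =
            ∑ m ∈ ℳ, ∑ m' ∈ ℳ, NC ρ h L R ℬ m c * NC ρ h L R ℬ m' c := by
          intro c
          rw [sq, sum_mul_sum]
        simp_rw [h2]
        have h3 : ∀ m ∈ ℳ, ∑ m' ∈ ℳ, ∑ c ∈ C, NC ρ h L R ℬ m c * NC ρ h L R ℬ m' c =
            ∑ c ∈ C, ∑ m' ∈ ℳ, NC ρ h L R ℬ m c * NC ρ h L R ℬ m' c := fun m _ => sum_comm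
        rw [sum_congr rfl h3, sum_comm]
    _ ≤ ∑ c ∈ C, ℳ.card * ∑ m ∈ ℳ, NC ρ h L R ℬ m c ^ 2 :=
        sum_le_sum fun c _ => sq_sum_le_card_mul_sum_sq
    _ = ℳ.card * ∑ m ∈ ℳ, ∑ c ∈ C, NC ρ h L R ℬ m c ^ 2 := by
        rw [← mul_sum, sum_comm]
    _ ≤ ℳ.card * ∑ m ∈ ℳ, 2 * AA ρ h L R ℬ m m :=
        Nat.mul_le_mul_left _ (sum_le_sum fun m _ => NC_sq ρ h L R ℬ m C)
    _ = _ := by rw [← mul_sum]; ring

/-- the number of `m` for which two blocks have a common cell -/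
theorem cnt_m (ρ : ℕ → ℕ → ℤ) {h L R : ℕ} (hh : 0 < h) (hL : 0 < L) (hR : 0 < R)
    {ℳ : Finset ℕ} {y : ℝ} (hy : 0 < y) (hM : ∀ m ∈ ℳ, y ≤ m ∧ (m : ℝ) ≤ 2 * y)
    (hRy : (R : ℝ) ≤ 3 * y * h) (β β' : ℕ × ℕ) :
    (((ℳ.filter fun m => (kap ρ h L R m β ∩ kap ρ h L R m β').Nonempty).card : ℕ) : ℝ) ≤
      12 * y / L * (wt β.1 β'.1 * gd L β.2 β'.2) + 1 := by
  have hL' : (0 : ℝ) < L := by exact_mod_cast hL
  have hh' : (0 : ℝ) < h := by exact_mod_cast hh
  have hR' : (0 : ℤ) < R := by exact_mod_cast hR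
  set g := gd L β.2 β'.2 with hg
  have hgL : g ∣ L := Nat.gcd_dvd_right _ _
  have hg0 : 0 < g := Nat.pos_of_dvd_of_pos hgL hL
  have hwt0 : 0 ≤ wt β.1 β'.1 := by unfold wt; positivity
  set S := ℳ.filter fun m => (kap ρ h L R m β ∩ kap ρ h L R m β').Nonempty with hS
  have key : ∀ m ∈ S, (y ≤ m ∧ (m : ℝ) ≤ 2 * y) ∧
      |base ρ h m β - base ρ h m β'| < 2 * R ∧ res ρ L m β = res ρ L m β' := by
    intro m hm
    rw [hS, mem_filter] at hm
    obtain ⟨hm1, c, hc⟩ := hm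
    rw [mem_inter] at hc
    unfold kap at hc
    rw [mem_insert, mem_singleton, mem_insert, mem_singleton] at hc
    set B := base ρ h m β with hB
    set B' := base ρ h m β' with hB'
    have a1 := Int.emod_nonneg B hR'.ne'
    have a2 := Int.emod_lt_of_pos B hR'
    have a3 := Int.mul_ediv_add_emod B R
    have a4 := Int.emod_nonneg B' hR'.ne'
    have a5 := Int.emod_lt_of_pos B' hR'
    have a6 := Int.mul_ediv_add_emod B' R
    refine ⟨hM m hm1, ?_, ?_⟩
    · rw [abs_lt]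
      obtain ⟨h1 | h1, h2 | h2⟩ := hc
      · have h3 := congrArg Prod.fst (h1.symm.trans h2)
        simp only at h3
        rw [h3] at a3
        constructor <;> linarith
      · have h3 := congrArg Prod.fst (h1.symm.trans h2)
        simp only at h3
        rw [h3, mul_add, mul_one] at a3
        constructor <;> linarith
      · have h3 := congrArg Prod.fst (h1.symm.trans h2)
        simp only at h3
        rw [← h3, mul_add, mul_one] at a6
        constructor <;> linarith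
      · have h3 := congrArg Prod.fst (h1.symm.trans h2)
        simp only at h3
        have h4 : B / R = B' / R := by linarith
        rw [h4] at a3
        constructor <;> linarith
    · obtain ⟨h1 | h1, h2 | h2⟩ := hc <;>
      · have h3 := congrArg Prod.snd (h1.symm.trans h2)
        simpa using h3
  have h1 := cnt S (L / g) (Nat.div_pos (Nat.le_of_dvd hL hgL) hg0) (12 * y * wt β.1 β'.1)
    (by positivity) (by
      intro a ha b hb hab
      obtain ⟨⟨a1, a2⟩, a3, a4⟩ := key a ha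
      obtain ⟨⟨b1, b2⟩, b3, b4⟩ := key b hb
      constructor
      · unfold res at a4 b4
        have h2 : (L : ℤ) ∣ (ρ β.1 β.2 + a * β.2) - (ρ β'.1 β'.2 + a * β'.2) :=
          Int.ModEq.dvd (show (ρ β'.1 β'.2 + a * β'.2) ≡ (ρ β.1 β.2 + a * β.2) [ZMOD L] from
            a4.symm)
        have h3 : (L : ℤ) ∣ (ρ β.1 β.2 + b * β.2) - (ρ β'.1 β'.2 + b * β'.2) :=
          Int.ModEq.dvd (show (ρ β'.1 β'.2 + b * β'.2) ≡ (ρ β.1 β.2 + b * β.2) [ZMOD L] from
            b4.symm)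
        have h4 : (L : ℤ) ∣ ((b - a : ℕ) : ℤ) * ((β.2 : ℤ) - β'.2) := by
          have := dvd_sub h3 h2
          rw [Nat.cast_sub hab]
          have e1 : (ρ β.1 β.2 + (b : ℤ) * β.2) - (ρ β'.1 β'.2 + b * β'.2) -
            ((ρ β.1 β.2 + a * β.2) - (ρ β'.1 β'.2 + a * β'.2)) =
            ((b : ℤ) - a) * ((β.2 : ℤ) - β'.2) := by ring
          rwa [e1] at this
        have h5 : L ∣ (b - a) * ((β.2 : ℤ) - β'.2).natAbs := by
          have := Int.natCast_dvd.1 h4
          rwa [Int.natAbs_mul, Int.natAbs_natCast] at this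
        have h6 : L / g ∣ (b - a) := by
          have h7 : g = Nat.gcd ((β.2 : ℤ) - β'.2).natAbs L := rfl
          obtain ⟨u, hu⟩ := hgL
          have h8 : g ∣ ((β.2 : ℤ) - β'.2).natAbs := Nat.gcd_dvd_left _ _
          obtain ⟨v, hv⟩ := h8
          have h9 : Nat.Coprime v u := by
            have := Nat.coprime_div_gcd_div_gcd (m := ((β.2 : ℤ) - β'.2).natAbs) (n := L)
              (by rw [← h7]; exact hg0)
            rw [← h7] at this
            rw [hv] at this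
            rw [Nat.mul_div_cancel_left _ hg0] at this
            have e2 : L / g = u := by
              conv_lhs => rw [hu]
              exact Nat.mul_div_cancel_left _ hg0
            rwa [e2] at this
          have e2 : L / g = u := by
            conv_lhs => rw [hu]
            exact Nat.mul_div_cancel_left _ hg0
          rw [e2]
          rw [hv] at h5
          rw [hu] at h5
          have h10 : g * u ∣ g * ((b - a) * v) := by
            have e3 : (b - a) * (g * v) = g * ((b - a) * v) := by ring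
            rwa [e3] at h5
          have h11 : u ∣ (b - a) * v := Nat.dvd_of_mul_dvd_mul_left hg0 h10
          exact h9.symm.dvd_of_dvd_mul_right h11
        exact h6
      · have hab' : (a : ℝ) ≤ b := by exact_mod_cast hab
        unfold wt
        by_cases hj : β.1 = β'.1
        · rw [hj, sub_self, abs_zero, max_eq_left (by norm_num)]
          linarith
        · have h2 : |((b : ℝ) - a) * (((β.1 : ℝ) - β'.1) * h)| ≤ 4 * R := by
            have e1 : ((base ρ h b β - base ρ h b β' : ℤ) : ℝ) -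
                ((base ρ h a β - base ρ h a β' : ℤ) : ℝ) =
                ((b : ℝ) - a) * (((β.1 : ℝ) - β'.1) * h) := by
              unfold base
              push_cast
              ring
            rw [← e1]
            have h3 : |((base ρ h b β - base ρ h b β' : ℤ) : ℝ)| ≤ 2 * R := by
              have := b3.le
              rw [← Int.cast_abs]
              exact_mod_cast this
            have h4 : |((base ρ h a β - base ρ h a β' : ℤ) : ℝ)| ≤ 2 * R := by
              have := a3.le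
              rw [← Int.cast_abs]
              exact_mod_cast this
            have h5 := abs_sub ((base ρ h b β - base ρ h b β' : ℤ) : ℝ)
              ((base ρ h a β - base ρ h a β' : ℤ) : ℝ)
            linarith
          have h3 : 1 ≤ |(β.1 : ℝ) - β'.1| := by
            have h4 : (β.1 : ℤ) - β'.1 ≠ 0 := by omega
            have h5 : 1 ≤ |(β.1 : ℤ) - β'.1| := Int.one_le_abs h4
            exact_mod_cast h5
          rw [max_eq_right h3, mul_one_div, le_div_iff₀ (by linarith)]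
          rw [abs_mul, abs_mul, abs_of_nonneg (by linarith), abs_of_pos hh'] at h2
          have h4 : ((b : ℝ) - a) * |(β.1 : ℝ) - β'.1| * h ≤ 12 * y * h := by
            calc ((b : ℝ) - a) * |(β.1 : ℝ) - β'.1| * h =
                ((b : ℝ) - a) * (|(β.1 : ℝ) - β'.1| * h) := by ring
              _ ≤ 4 * R := h2
              _ ≤ 4 * (3 * y * h) := by linarith
              _ = _ := by ring
          exact le_of_mul_le_mul_right h4 hh')
  refine h1.trans (le_of_eq ?_)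
  have hg0' : (0 : ℝ) < g := by exact_mod_cast hg0
  rw [Nat.cast_div hgL hg0'.ne']
  field_simp

end Pool.Agent.Zk11.LC
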