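import Pool.Agent.Zk11.LC.Pairs

/-!
The total number of coincidences, and the number of different values.
-/

set_option autoImplicit false

namespace Pool.Agent.Zk11.LC

open Finset

theorem sum_AA_diag (ρ : ℕ → ℕ → ℤ) {h L R J : ℕ} (hh : 0 < h) (hL : 0 < L) (hR : 0 < R)
    {ℳ : Finset ℕ} {y : ℝ} (hy : 0 < y) (hM : ∀ m ∈ ℳ, y ≤ m ∧ (m : ℝ) ≤ 2 * y)
    (hRy : (R : ℝ) ≤ 3 * y * h) :
    ((∑ m ∈ ℳ, AA ρ h L R (range J ×ˢ range L) m m : ℕ) : ℝ) ≤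
      J * L * (48 * y * L.divisors.card * (2 + Real.log J) + J * L) := by
  have hL' : (0 : ℝ) < L := by exact_mod_cast hL
  set ℬ := range J ×ˢ range L with hℬ
  have h1 : ∑ m ∈ ℳ, AA ρ h L R ℬ m m = ∑ β ∈ ℬ, ∑ β' ∈ ℬ,
      (ℳ.filter fun m => (kap ρ h L R m β ∩ kap ρ h L R m β').Nonempty).card := by
    unfold AA
    simp_rw [card_filter, sum_product]
    rw [sum_comm]
    refine sum_congr rfl fun β _ => ?_
    rw [sum_comm]
  have hc : ((ℬ.card : ℕ) : ℝ) = J * L := by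
    rw [hℬ, card_product, card_range, card_range]
    push_cast
    rfl
  have h2 : ∀ β ∈ ℬ, ∑ β' ∈ ℬ, (wt β.1 β'.1 * gd L β.2 β'.2) ≤
      2 * (2 + Real.log J) * (2 * L * L.divisors.card) := by
    intro β hβ
    rw [hℬ, mem_product, mem_range, mem_range] at hβ
    rw [hℬ, sum_product]
    have h3 : ∑ j' ∈ range J, ∑ b' ∈ range L, wt β.1 j' * (gd L β.2 b' : ℝ) =
        (∑ j' ∈ range J, wt β.1 j') * ∑ b' ∈ range L, (gd L β.2 b' : ℝ) := by
      rw [sum_mul_sum]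
    rw [h3]
    have h4 := sum_wt J β.1 hβ.1
    have h5 := sum_gd L β.2 hL
    rw [Nat.cast_sum] at h5
    have h6 : 0 ≤ ∑ b' ∈ range L, (gd L β.2 b' : ℝ) := sum_nonneg fun _ _ => Nat.cast_nonneg _
    have h7 : 0 ≤ 2 * (2 + Real.log J) := by
      refine le_trans (sum_nonneg fun j' _ => ?_) h4
      unfold wt
      positivity
    exact mul_le_mul h4 h5 h6 h7
  rw [h1, Nat.cast_sum]
  calc ∑ β ∈ ℬ, ((∑ β' ∈ ℬ,
      (ℳ.filter fun m => (kap ρ h L R m β ∩ kap ρ h L R m β').Nonempty).card : ℕ) : ℝ) ≤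
      ∑ β ∈ ℬ, ∑ β' ∈ ℬ, (12 * y / L * (wt β.1 β'.1 * gd L β.2 β'.2) + 1) := by
        refine sum_le_sum fun β _ => ?_
        rw [Nat.cast_sum]
        exact sum_le_sum fun β' _ => cnt_m ρ hh hL hR hy hM hRy β β'
    _ = ∑ β ∈ ℬ, (12 * y / L * ∑ β' ∈ ℬ, (wt β.1 β'.1 * gd L β.2 β'.2) + J * L) := by
        refine sum_congr rfl fun β _ => ?_
        rw [sum_add_distrib, ← mul_sum, sum_const, nsmul_eq_mul, mul_one, hc]
    _ ≤ ∑ β ∈ ℬ, (12 * y / L * (2 * (2 + Real.log J) * (2 * L * L.divisors.card)) + J * L) := by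
        refine sum_le_sum fun β hβ => ?_
        have := h2 β hβ
        have h8 : 0 ≤ 12 * y / L := by positivity
        have := mul_le_mul_of_nonneg_left this h8
        linarith
    _ = _ := by
        rw [sum_const, nsmul_eq_mul, hc]
        field_simp
        ring

theorem total (ρ : ℕ → ℕ → ℤ) {h L R J : ℕ} (hh : 0 < h) (hL : 0 < L) (hR : 0 < R)
    {Q ℳ : Finset ℕ} (hQ : ∀ p ∈ Q, p / h < J) {y : ℝ} (hy : 0 < y)
    (hM : ∀ m ∈ ℳ, m.Prime ∧ ¬ m ∣ L ∧ y ≤ m ∧ (m : ℝ) ≤ 2 * y)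
    (hRy : (R : ℝ) ≤ 3 * y * h) (hRm : 2 * y * h ≤ R) :
    ((∑ m ∈ ℳ, ∑ m' ∈ ℳ, TT ρ h L Q m m' : ℕ) : ℝ) ≤
      (J * L * (48 * y * L.divisors.card * (2 + Real.log J) + J * L)) *
        (((h : ℝ) / L + 1) + 2 * ℳ.card * (h / (y * L) + 1)) := by
  have hL' : (0 : ℝ) < L := by exact_mod_cast hL
  have hh' : (0 : ℝ) < h := by exact_mod_cast hh
  set ℬ := range J ×ˢ range L with hℬ
  have hQB : ∀ p ∈ Q, (p / h, p % L) ∈ ℬ := by
    intro p hp
    rw [hℬ, mem_product, mem_range, mem_range]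
    exact ⟨hQ p hp, Nat.mod_lt _ hL⟩
  have hmR : ∀ m ∈ ℳ, m * h ≤ R := by
    intro m hm
    have h1 := (hM m hm).2.2.2
    have : ((m * h : ℕ) : ℝ) ≤ R := by
      push_cast
      exact (mul_le_mul_of_nonneg_right h1 hh'.le).trans hRm
    exact_mod_cast this
  have h1 : ∀ m ∈ ℳ, ∀ m' ∈ ℳ, (TT ρ h L Q m m' : ℝ) ≤
      (if m = m' then (AA ρ h L R ℬ m m : ℝ) * (h / L + 1) else 0) +
        AA ρ h L R ℬ m m' * (h / (y * L) + 1) := by
    intro m hm m' hm'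
    have h2 := TT_le ρ hh hL hR hQB (hM m hm).1 (hM m' hm').1 (hmR m hm) (hmR m' hm')
      (hM m' hm').2.1 hy (hM m' hm').2.2.1
    by_cases hmm : m = m'
    · subst hmm
      rw [if_pos rfl] at h2 ⊢
      have : 0 ≤ (AA ρ h L R ℬ m m : ℝ) * (h / (y * L) + 1) := by positivity
      linarith
    · rw [if_neg hmm] at h2 ⊢
      linarith
  have hD := sum_AA_diag ρ (J := J) hh hL hR hy (fun m hm => (hM m hm).2.2) hRy
  rw [← hℬ] at hD
  have hS := sum_AA ρ h L R ℬ ℳ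
  have hS' : ((∑ m ∈ ℳ, ∑ m' ∈ ℳ, AA ρ h L R ℬ m m' : ℕ) : ℝ) ≤
      2 * ℳ.card * ((∑ m ∈ ℳ, AA ρ h L R ℬ m m : ℕ) : ℝ) := by exact_mod_cast hS
  set A : ℝ := ((∑ m ∈ ℳ, AA ρ h L R ℬ m m : ℕ) : ℝ) with hA
  have hA0 : 0 ≤ A := Nat.cast_nonneg _
  calc ((∑ m ∈ ℳ, ∑ m' ∈ ℳ, TT ρ h L Q m m' : ℕ) : ℝ) =
      ∑ m ∈ ℳ, ∑ m' ∈ ℳ, (TT ρ h L Q m m' : ℝ) := by push_cast; rfl
    _ ≤ ∑ m ∈ ℳ, ∑ m' ∈ ℳ, ((if m = m' then (AA ρ h L R ℬ m m : ℝ) * (h / L + 1) else 0) +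
        AA ρ h L R ℬ m m' * (h / (y * L) + 1)) :=
        sum_le_sum fun m hm => sum_le_sum fun m' hm' => h1 m hm m' hm'
    _ = A * (h / L + 1) +
        ((∑ m ∈ ℳ, ∑ m' ∈ ℳ, AA ρ h L R ℬ m m' : ℕ) : ℝ) * (h / (y * L) + 1) := by
        simp_rw [sum_add_distrib]
        congr 1
        · rw [hA]
          push_cast
          rw [sum_mul]
          refine sum_congr rfl fun m hm => ?_
          rw [sum_ite_eq, if_pos hm]
        · push_cast
          rw [sum_mul]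
          exact sum_congr rfl fun m _ => by rw [sum_mul]
    _ ≤ A * (h / L + 1) + (2 * ℳ.card * A) * (h / (y * L) + 1) := by
        gcongr
    _ = A * ((h / L + 1) + 2 * ℳ.card * (h / (y * L) + 1)) := by ring
    _ ≤ _ := by
        refine mul_le_mul_of_nonneg_right hD ?_
        positivity

/-- many values -/
theorem image_ge (ρ : ℕ → ℕ → ℤ) (h L : ℕ) (ℳ Q : Finset ℕ) :
    (ℳ.card * Q.card) ^ 2 ≤ ((ℳ ×ˢ Q).image fun w => val ρ h L w.1 w.2).card *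
      ∑ m ∈ ℳ, ∑ m' ∈ ℳ, TT ρ h L Q m m' := by
  set P := ℳ ×ˢ Q with hP
  set f : ℕ × ℕ → ℤ := fun w => val ρ h L w.1 w.2 with hf
  have h1 : P.card = ∑ v ∈ P.image f, (P.filter fun w => f w = v).card :=
    card_eq_sum_card_image f P
  have h2 : (∑ v ∈ P.image f, (P.filter fun w => f w = v).card) ^ 2 ≤
      (P.image f).card * ∑ v ∈ P.image f, (P.filter fun w => f w = v).card ^ 2 :=
    sq_sum_le_card_mul_sum_sq
  have h3 : ∑ v ∈ P.image f, (P.filter fun w => f w = v).card ^ 2 =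
      ((P ×ˢ P).filter fun u => f u.1 = f u.2).card := by
    rw [card_eq_sum_card_fiberwise (f := fun u : (ℕ × ℕ) × (ℕ × ℕ) => f u.1) (t := P.image f)]
    · refine sum_congr rfl fun v _ => ?_
      rw [sq, ← card_product, filter_filter]
      congr 1
      ext u
      simp only [mem_product, mem_filter]
      constructor
      · rintro ⟨⟨a1, a2⟩, a3, a4⟩
        exact ⟨⟨a1, a3⟩, a2.trans a4.symm, a2⟩
      · rintro ⟨⟨a1, a2⟩, a3, a4⟩
        exact ⟨⟨a1, a4⟩, a2, a3.symm.trans a4⟩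
    · intro u hu
      rw [mem_coe, mem_filter, mem_product] at hu
      rw [mem_coe]
      exact mem_image_of_mem f hu.1.1
  have h4 : ((P ×ˢ P).filter fun u => f u.1 = f u.2).card =
      ∑ m ∈ ℳ, ∑ m' ∈ ℳ, TT ρ h L Q m m' := by
    unfold TT
    simp_rw [card_filter, hP, sum_product]
    refine sum_congr rfl fun m _ => ?_
    rw [sum_comm]
  rw [← card_product, ← hP, h1, ← h4, ← h3]
  exact h2

end Pool.Agent.Zk11.LC
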